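import Pool.Agent.H1.CA.TarP
import Pool.Agent.H9.CA.TarQ

/-!
# MP_ceca85_lc: the facts `F_M1`, ..., `F_M7` from the targets of the forcing part
-/

set_option linter.unusedVariables false

open Ordinal Order Set
open scoped ZFSet

namespace CAA

open SF

theorem pf_M1 (hPG : T_PG) (hCF : T_CF) (hCH : T_CH) (hGH : T_GH) : F_M1 := by
  intro D G β hD hG hβ
  obtain ⟨h1, h2, h3, h4, h5, h6, h7, h8, h9, h10⟩ := (hCF D hD G hG).1 β hβ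
  refine ⟨h3, h1, h6, h4, h2, h10, hCH D hD G hG β hβ, fun z hz => ?_⟩
  unfold Dat.a aS at hz
  obtain ⟨k, hk, q, hq, rfl⟩ := ((hPG D hD G hG).2.2.1 z).1 (ZFSet.mem_sep.1 hz).1
  obtain ⟨hqM, hqQ⟩ := ((hPG D hD G hG).2.1 k hk).2.1 q hq
  refine ⟨k, hk, q, ?_, hqQ.sub, rfl⟩
  refine hD.grd.subκ (D.μ k).toZFSet ?_ q hqM hqQ.sub
  exact (((hGH D hD).2.2 _ hD.grd.zκ).2.2 _).2 (hD.sz.μκ k hk)

theorem pf_M2 (hCF : T_CF) : F_M2 := fun D G α β hD hG h1 h2 => (hCF D hD G hG).2 α β h1 h2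

theorem pf_M3 (hPG : T_PG) (hCG : T_CG) : F_M3 := by
  intro D G β i hD hG hβ hi hiA
  refine ⟨(hCG D hD G hG β hβ i hi).2 hiA, ((hPG D hD G hG).2.1 i hi).2.2.2.2.2.2.1, ?_⟩
  intro δ hδ hδ2 hI
  exact ((hPG D hD G hG).2.1 i hi).2.2.2.2.2.2.2 _ hδ2 ((hD.eA i hi _).2 ⟨δ, hδ, rfl, hI⟩)

theorem pf_M4 (hCG : T_CG) (hCI : T_CI) : F_M4 := by
  intro D G β i hD hG hβ hi
  refine ⟨fun hiA C hC hcl => ?_, hCI D hD G hG β hβ i hi⟩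
  obtain ⟨δ, hδ, hδ1, hδ2⟩ := (hCG D hD G hG β hβ i hi).1 hiA C hC hcl
  obtain ⟨δ', hδ', e, hI⟩ := (hD.eA i hi _).1 hδ1
  rw [← Ordinal.toZFSet_injective e] at hI
  exact ⟨δ, hδ, hδ2, hI⟩

theorem pf_M5 (hMC : T_MC) : F_M5 := fun D G β hD hG hβ R hR u v hu hv =>
  hMC D hD G hG β hβ R hR u hu v hv

theorem pf_M6 (hCE : T_CE) : F_M6 := by
  intro D G β hD hG hβ z
  rw [(hCE D hD G hG).2.2.2.2.1 β hβ, ZFSet.mem_sep, ZFSet.mem_prod]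
  constructor
  · rintro ⟨⟨i, hi, q, hq, rfl⟩, h1, h2, j, hj, h3, h4⟩
    rw [fst_pair] at h1 h2 h3
    exact ⟨i, q, rfl, h1, h2, hq, j, hj, h3, h4⟩
  · rintro ⟨i, q, rfl, h1, h2, hq, j, hj, h3, h4⟩
    rw [fst_pair]
    have h5 := h1
    unfold Dat.A As at h5
    exact ⟨⟨i, (ZFSet.mem_sep.1 h5).1, q, hq, rfl⟩, h1, h2, j, hj, h3, h4⟩

theorem pf_M7 (hMG : T_MG) : F_M7 := fun D G β hD hG hβ hl x hx => hMG D hD G hG β hβ hl x hx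

end CAA
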