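import Pool.Agent.H1.CA.PS3

/-!
# MP_ceca85_lc: strategic closure, the limit step and the theorem
-/

set_option linter.unusedVariables false

open Ordinal Order Set
open scoped ZFSet

namespace CAA

open SF

/-- the limit step -/
theorem psL_spec (hPA : T_PA) (hPB : T_PB) (hPF : T_PF) {D : Dat} (hD : D.Ok) {i m : Ordinal.{0}}
    (hi : i < D.κ) (hm : IsSuccLimit m) {p0 : V} (hp0 : p0 ∈ D.c) (v : Ordinal.{0} → V) {S : V}
    (hS : ∀ x, x ∈ S ↔ ∃ l < m, x = v l) (hSM : D.M S)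
    (hv : ∀ l < m, v l ∈ D.c) (hle : ∀ l l', l ≤ l' → l' < m → D.Le (v l') (v l))
    (hv0 : ∀ l < m, ∀ k < i, app (v l) k.toZFSet = app p0 k.toZFSet)
    (hj : ∃ j < D.κ, ∀ k, (k ∈ dm p0 ∨ ∃ l < m, k ∈ dm (v l)) → k ∈ j.toZFSet)
    (hδ : ∀ k, i ≤ k → k < D.κ → (psV S k.toZFSet).Nonempty → ∃ δ < D.μ k,
      (⋃₀ psV S k.toZFSet : ZFSet) = δ.toZFSet ∧ δ.toZFSet ∉ app D.Ef k.toZFSet ∧
      ∀ x ∈ psV S k.toZFSet, ∃ y ∈ psV S k.toZFSet, x ∈ y) :
    psL D.κ.toZFSet i.toZFSet p0 S ∈ D.c ∧ (∀ l < m, D.Le (psL D.κ.toZFSet i.toZFSet p0 S) (v l)) ∧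
    ∀ k < i, app (psL D.κ.toZFSet i.toZFSet p0 S) k.toZFSet = app p0 k.toZFSet := by
  have hM : ZFm D.M := hD.grd.zfc.toZFm
  obtain ⟨hP1, hP2, hP3, hP4, hP5, hP6, hP7, hP8, hP9, hP10, hP11, hP12⟩ := hPF D hD
  obtain ⟨hwS, hwM, hwQ, hwo⟩ := hP5 p0 hp0
  have hκθ := hD.grd.κχ.trans hD.grd.χθ
  have hNM : D.M (psL D.κ.toZFSet i.toZFSet p0 S) := by
    refine tm_psL.1 D.M hM (fun n => match n with
      | 0 => D.κ.toZFSet
      | 1 => i.toZFSet
      | 2 => p0
      | _ => S) (fun n => ?_)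
    match n with
    | 0 => exact (hD.grd.ord _).2 hκθ
    | 1 => exact (hD.grd.ord _).2 (hi.trans hκθ)
    | 2 => exact hwM
    | n + 3 => exact hSM
  obtain ⟨hs, hv1, hv2, hv3⟩ := app_form hPB (i := i.toZFSet)
    (dom := D.κ.toZFSet.sep fun k => k ∉ i.toZFSet ∧ (psV S k).Nonempty)
    (F := fun k => insert (⋃₀ psV S k : ZFSet) (psV S k)) hwS
    (fun k hk => (ZFSet.mem_sep.1 hk).2.1)
  have hval : ∀ k, i ≤ k → k < D.κ → (psV S k.toZFSet).Nonempty →
      app (psL D.κ.toZFSet i.toZFSet p0 S) k.toZFSet =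
        insert (⋃₀ psV S k.toZFSet : ZFSet) (psV S k.toZFSet) := fun k hik hk hne =>
    hv2 _ (ZFSet.mem_sep.2 ⟨Ordinal.toZFSet_mem_toZFSet_iff.2 hk,
      fun h => absurd (Ordinal.toZFSet_mem_toZFSet_iff.1 h) (not_lt.2 hik), hne⟩)
  have hval0 : ∀ k, i ≤ k → k < D.κ → ¬ (psV S k.toZFSet).Nonempty →
      app (psL D.κ.toZFSet i.toZFSet p0 S) k.toZFSet = ∅ := fun k hik hk hne =>
    hv3 _ (fun h => absurd (Ordinal.toZFSet_mem_toZFSet_iff.1 h) (not_lt.2 hik))
      (fun h => hne (ZFSet.mem_sep.1 h).2.2)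
  have hvi : ∀ k < i, app (psL D.κ.toZFSet i.toZFSet p0 S) k.toZFSet = app p0 k.toZFSet :=
    fun k hk => hv1 _ (Ordinal.toZFSet_mem_toZFSet_iff.2 hk)
  have hU : ∀ k x, x ∈ psV S k ↔ ∃ l < m, x ∈ app (v l) k := by
    intro k x
    unfold psV
    rw [ZFSet.mem_sUnion]
    constructor
    · rintro ⟨z, hz, hx⟩
      obtain ⟨w, hw, rfl⟩ := mem_imS.1 hz
      obtain ⟨l, hl, rfl⟩ := (hS w).1 hw
      exact ⟨l, hl, hx⟩
    · rintro ⟨l, hl, hx⟩
      exact ⟨_, mem_imS.2 ⟨v l, (hS _).2 ⟨l, hl, rfl⟩, rfl⟩, hx⟩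
  have hQL : ∀ k < D.κ, IsQ (D.μ k).toZFSet (app D.Ef k.toZFSet)
      (app (psL D.κ.toZFSet i.toZFSet p0 S) k.toZFSet) ∧
      ∀ l < m, Ee (app (psL D.κ.toZFSet i.toZFSet p0 S) k.toZFSet) (app (v l) k.toZFSet) := by
    intro k hk
    rcases lt_or_ge k i with hki | hki
    · rw [hvi k hki]
      refine ⟨(hwQ k hk).2, fun l hl => ?_⟩
      rw [hv0 l hl k hki]
      exact hPA.1 _
    · by_cases hne : (psV S k.toZFSet).Nonempty
      · obtain ⟨δ, hδm, e, h1, h2⟩ := hδ k hki hk hne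
        rw [hval k hki hk hne, e]
        exact isQ_union (fun l => app (v l) k.toZFSet) m (fun l hl => ((hP5 _ (hv l hl)).2.2.1 k hk).2)
          (fun l l' hll hl' => hle l l' hll hl' k hk) (hU _) hδm h1 e h2
      · rw [hval0 k hki hk hne]
        have h0 : ∀ l < m, app (v l) k.toZFSet = ∅ := fun l hl =>
          (ZFSet.eq_empty _).2 fun x hx => hne ⟨x, (hU _ x).2 ⟨l, hl, hx⟩⟩
        constructor
        · have h1 := ((hP5 _ (hv 0 hm.bot_lt)).2.2.1 k hk).2
          rwa [h0 0 hm.bot_lt] at h1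
        · intro l hl
          rw [h0 l hl]
          exact hPA.1 _
  refine ⟨?_, fun l hl k hk => (hQL k hk).2 l hl, hvi⟩
  obtain ⟨j, hj, hjb⟩ := hj
  refine cd_of hD hNM hs hj ?_ fun k hk => (hQL k hk).1
  intro z hz
  rcases ZFSet.mem_union.1 hz with h1 | h1
  · obtain ⟨k, hk, q, rfl⟩ := ((hD.cA p0).1 hp0).pr z (ZFSet.mem_sep.1 h1).1
    exact ⟨k, Ordinal.toZFSet_mem_toZFSet_iff.1
      (hjb _ (Or.inl (mem_dm.2 ⟨q, (ZFSet.mem_sep.1 h1).1⟩))), q, rfl⟩
  · obtain ⟨k, hk, rfl⟩ := mem_imS.1 h1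
    obtain ⟨hkκ, hki, hne⟩ := ZFSet.mem_sep.1 hk
    obtain ⟨k, hk', rfl⟩ := Ordinal.mem_toZFSet_iff.1 hkκ
    refine ⟨k, ?_, _, rfl⟩
    obtain ⟨x, hx⟩ := hne
    obtain ⟨l, hl, hx⟩ := (hU _ x).1 hx
    refine Ordinal.toZFSet_mem_toZFSet_iff.1 (hjb _ (Or.inr ⟨l, hl, ?_⟩))
    by_contra hcon
    rw [hPB.2.2.2 _ _ hcon] at hx
    exact ZFSet.notMem_empty _ hx

theorem pf_PS (hPA : T_PA) (hPB : T_PB) (hPF : T_PF) (hHG : T_HG) (hGH : T_GH) (hDF : T_DF)
    (hRKT : T_RKT) : T_PS := by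
  intro D hD i hi ρ hρ p0 hp0 Ψ hΨ hΨf hΨ1
  have hM : ZFm D.M := hD.grd.zfc.toZFm
  have hχM : ∀ x ∈ LA ∅ D.χ, D.M x := fun x hx => Lh_mono hD.grd.χθ.le hx
  have hzχ := hD.grd.zχ
  have hκθ := hD.grd.κχ.trans hD.grd.χθ
  obtain ⟨hP1, hP2, hP3, hP4, hP5, hP6, hP7, hP8, hP9, hP10, hP11, hP12⟩ := hPF D hD
  have hlimμ : IsSuccLimit (D.μ i) := ((hGH D hD).1 i hi).2.2.1
  have hordχ : ∀ α : Ordinal.{0}, α.toZFSet ∈ LA ∅ D.χ ↔ α < D.χ := ((hGH D hD).2.2 _ hzχ).2.2
  have hordκ : ∀ α : Ordinal.{0}, α.toZFSet ∈ LA ∅ D.κ ↔ α < D.κ :=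
    ((hGH D hD).2.2 _ hD.grd.zκ).2.2
  have hρκ : ρ < D.κ := hρ.trans (hD.sz.μκ i hi)
  -- the parameter
  have hΨχ : Ψ ∈ LA ∅ D.χ := by
    have h1 : ZFSet.prod (ZFSet.prod D.c ρ.toZFSet) D.c ∈ LA ∅ D.χ :=
      (Tm.prod (Tm.prod (Tm.var 0) (Tm.var 1)) (Tm.var 0)).1 _ hzχ (fun n => match n with
        | 0 => D.c
        | _ => ρ.toZFSet) (fun n => by
          match n with
          | 0 => exact hD.cM
          | n + 1 => exact (hordχ _).2 (hρκ.trans hD.grd.κχ))
    exact hD.grd.subχ _ h1 _ hΨ hΨf.1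
  have hp0χ : p0 ∈ LA ∅ D.χ := Lh_mono hD.grd.κχ.le ((hD.cA p0).1 hp0).lk
  set a : V := ZFSet.pair D.κ.toZFSet (ZFSet.pair i.toZFSet (ZFSet.pair D.mu
    (ZFSet.pair Ψ p0))) with ha
  have haχ : a ∈ LA ∅ D.χ :=
    hzχ.mpair ((hordχ _).2 hD.grd.κχ) (hzχ.mpair ((hordχ _).2 (hi.trans hD.grd.κχ))
      (hzχ.mpair hD.sz.muM (hzχ.mpair hΨχ hp0χ)))
  have ha1 : fst a = D.κ.toZFSet := by rw [ha, fst_pair]
  have ha2 : fst (snd a) = i.toZFSet := by rw [ha, snd_pair, fst_pair]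
  have ha3 : fst (snd (snd a)) = D.mu := by rw [ha, snd_pair, snd_pair, fst_pair]
  have ha4 : fst (snd (snd (snd a))) = Ψ := by rw [ha, snd_pair, snd_pair, snd_pair, fst_pair]
  have ha5 : snd (snd (snd (snd a))) = p0 := by rw [ha, snd_pair, snd_pair, snd_pair, snd_pair]
  obtain ⟨H, hH⟩ := hHG D hD i hi (succ ρ) (hlimμ.succ_lt hρ) a haχ
  -- the sequences of hulls
  have hsM : ∀ m ≤ ρ, (resS (succ m).toZFSet fun x => H x.rank) ∈ LA ∅ D.χ := fun m hm =>
    (hH.mem (succ ρ) le_rfl).2 (hH.seq m (succ ρ) (Order.lt_succ_iff.2 hm) le_rfl)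
  have happ : ∀ m l, l ≤ m → app (resS (succ m).toZFSet fun x => H x.rank) l.toZFSet = H l := by
    intro m l hl
    rw [app_resS (Ordinal.toZFSet_mem_toZFSet_iff.2 (Order.lt_succ_iff.2 hl)),
      Ordinal.rank_toZFSet]
  set hr : V := resS (succ ρ).toZFSet fun x => H x.rank with hhr
  set v : Ordinal.{0} → V := fun m => psF a hr m.toZFSet with hv
  have hrM : D.M hr := hχM _ (hsM ρ le_rfl)
  have haM : D.M a := hχM _ haχ
  have hv' : ∀ l, l ≤ ρ → v (succ l) = psF a (resS (succ l).toZFSet fun x => H x.rank)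
      (succ l).toZFSet := by
    intro l hl
    refine psF_congr _ _ _ _ fun l' hl' => ?_
    have h1 := Order.lt_succ_iff.1 hl'
    rw [happ ρ l' (h1.trans hl), happ l l' h1]
  have hvH : ∀ l m, l < m → m ≤ ρ → v (succ l) ∈ H m := by
    intro l m hlm hm
    rw [hv' l (hlm.le.trans hm)]
    have h1 := hH.seq l m hlm (hm.trans (Order.le_succ ρ))
    have h2 : (succ l).toZFSet ∈ H m := by
      have h3 := hH.cl m (hm.trans (Order.le_succ ρ)) _ (Tm.dm (Tm.var 0)) (fun _ => _)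
        (fun _ => h1)
      simpa [dm_resS] using h3
    refine hH.cl m (hm.trans (Order.le_succ ρ)) _ tm_psF (fun n => match n with
      | 0 => a
      | 1 => _
      | _ => (succ l).toZFSet) (fun n => ?_)
    match n with
    | 0 => exact hH.mono 0 m (zero_le) (hm.trans (Order.le_succ ρ)) hH.a0
    | 1 => exact h1
    | n + 2 => exact h2
  have hT : ∀ x y z, D.Le x y → D.Le y z → D.Le x z := fun x y z h1 h2 k hk =>
    hPA.2.1 _ _ _ (h1 k hk) (h2 k hk)
  have hR : ∀ x, D.Le x x := fun x k hk => hPA.1 _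
  have hw : ∀ l < ρ, v l ∈ D.c → app Ψ (ZFSet.pair (v l) l.toZFSet) ∈ D.c := fun l hl hc =>
    app_mem hΨf (ZFSet.pair_mem_prod.2 ⟨hc, Ordinal.toZFSet_mem_toZFSet_iff.2 hl⟩)
  have hstep : ∀ l < ρ, v l ∈ D.c → v (succ l) ∈ D.c ∧
      D.Le (v (succ l)) (app Ψ (ZFSet.pair (v l) l.toZFSet)) ∧ D.Le (v (succ l)) (v l) ∧
      (∀ k < i, app (v (succ l)) k.toZFSet = app (v l) k.toZFSet) ∧
      ∀ k, i ≤ k → k < D.κ → (app (v l) k.toZFSet).Nonempty → ∃ τ < D.μ k,
        (⋃₀ app (v (succ l)) k.toZFSet : ZFSet) = τ.toZFSet ∧ τ.toZFSet ∈ app (v (succ l)) k.toZFSet ∧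
        (∀ y ∈ app (v l) k.toZFSet, y ∈ τ.toZFSet) ∧
        (∀ f ∈ H l, ∀ η < D.μ k, app f k.toZFSet = η.toZFSet → η < τ) := by
    intro l hl hc
    have hwc := hw l hl hc
    have hl' : l ≤ succ ρ := hl.le.trans (Order.le_succ ρ)
    obtain ⟨h1, h2, h3, h4⟩ := psN_spec hPA hPB hPF hGH hDF hD hi (hχM _ (hH.mem l hl').1)
      (hH.sm l hl') hwc
    have e : v (succ l) = psN D.κ.toZFSet i.toZFSet D.mu (H l)
        (app Ψ (ZFSet.pair (v l) l.toZFSet)) := by
      show psF a hr (succ l).toZFSet = _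
      rw [psF_succ, ha1, ha2, ha3, ha4, happ ρ l hl.le]
    obtain ⟨g1, g2⟩ := hΨ1 (v l) hc l hl
    rw [e]
    refine ⟨h1, h2, hT _ _ _ h2 g1, fun k hk => by rw [h3 k hk, g2 k hk], fun k hik hk hne => ?_⟩
    have hsub := (g1 k hk).1
    obtain ⟨τ, hτ, e1, e2, e3⟩ := h4 k hik hk (by
      obtain ⟨x, hx⟩ := hne
      exact ⟨x, hsub hx⟩)
    refine ⟨τ, hτ, ?_, ?_, fun y hy => e2 y (hsub hy), e3⟩
    · refine sUn_max (m := D.μ k) ((hP5 _ h1).2.2.1 k hk).2.sub ?_ ?_
      · rw [e1]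
        exact ZFSet.mem_insert_iff.2 (Or.inl rfl)
      · intro y hy
        rw [e1] at hy
        rcases ZFSet.mem_insert_iff.1 hy with rfl | hy
        · exact Or.inr rfl
        · exact Or.inl (e2 y hy)
    · rw [e1]
      exact ZFSet.mem_insert_iff.2 (Or.inl rfl)
  have hv0 : v 0 = p0 := by
    show psF a hr (0 : Ordinal.{0}).toZFSet = p0
    rw [Ordinal.toZFSet_zero, psF_zero, ha5]
  -- the invariants
  have main : ∀ m ≤ ρ, v m ∈ D.c ∧ (∀ l < m, D.Le (v m) (v l)) ∧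
      (∀ k < i, app (v m) k.toZFSet = app p0 k.toZFSet) := by
    intro m
    induction m using WellFoundedLT.induction with
    | ind m ih =>
      intro hmρ
      rcases zero_or_succ_or_isSuccLimit m with rfl | ⟨l, rfl⟩ | hm
      · rw [hv0]
        exact ⟨hp0, fun l hl => absurd hl (not_lt_bot), fun k hk => rfl⟩
      · have hlρ : l < ρ := lt_of_lt_of_le (Order.lt_succ l) hmρ
        obtain ⟨i1, i2, i3⟩ := ih l (Order.lt_succ l) hlρ.le
        obtain ⟨h1, -, h3, h4, -⟩ := hstep l hlρ i1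
        refine ⟨h1, fun l' hl' => ?_, fun k hk => by rw [h4 k hk, i3 k hk]⟩
        rcases (Order.lt_succ_iff.1 hl').eq_or_lt with rfl | h5
        · exact h3
        · exact hT _ _ _ h3 (i2 l' h5)
      · have hlρ : ∀ l < m, l < ρ := fun l hl => lt_of_lt_of_le hl hmρ
        have hc : ∀ l < m, v l ∈ D.c := fun l hl => (ih l hl (hlρ l hl).le).1
        have hle : ∀ l l', l ≤ l' → l' < m → D.Le (v l') (v l) := by
          intro l l' hll hl'
          rcases hll.eq_or_lt with rfl | h1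
          · exact hR _
          · exact (ih l' hl' (hlρ l' hl').le).2.1 l h1
        have hmM : D.M m.toZFSet := (hD.grd.ord _).2 ((lt_of_le_of_lt hmρ hρκ).trans hκθ)
        set S : V := imS m.toZFSet fun l => psF a hr l with hSdef
        have hS : ∀ x, x ∈ S ↔ ∃ l < m, x = v l := by
          intro x
          rw [hSdef, mem_imS]
          constructor
          · rintro ⟨y, hy, rfl⟩
            obtain ⟨l, hl, rfl⟩ := Ordinal.mem_toZFSet_iff.1 hy
            exact ⟨l, hl, rfl⟩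
          · rintro ⟨l, hl, rfl⟩
            exact ⟨_, Ordinal.toZFSet_mem_toZFSet_iff.2 hl, rfl⟩
        have hcv : Tm ZFm (fun _ u => psF (u 2) (u 3) (u 0)) := tm_psF.rn fun n => match n with
          | 0 => 2
          | 1 => 3
          | _ => 0
        have hSM : D.M S := by
          refine (Tm.image (g := fun _ u => psF (u 2) (u 3) (u 0)) (Tm.var 0) hcv).1 D.M hM
            (fun n => match n with
              | 0 => m.toZFSet
              | 1 => a
              | _ => hr) (fun n => ?_)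
          match n with
          | 0 => exact hmM
          | 1 => exact haM
          | n + 2 => exact hrM
        have hj : ∃ j < D.κ, ∀ k, (k ∈ dm p0 ∨ ∃ l < m, k ∈ dm (v l)) → k ∈ j.toZFSet := by
          have hFM : D.M (resS m.toZFSet fun l => (dm (psF a hr l)).rank.toZFSet) := by
            have hr1 : Tm ZFm (fun _ u => (dm (psF (u 2) (u 3) (u 0))).rank.toZFSet) :=
              Tm.at1 (F := fun _ x => x.rank.toZFSet) hRKT (Tm.dm hcv)
            refine (Tm.resS (g := fun _ u => (dm (psF (u 2) (u 3) (u 0))).rank.toZFSet)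
              (Tm.var 0) hr1).1 D.M hM (fun n => match n with
                | 0 => m.toZFSet
                | 1 => a
                | _ => hr) (fun n => ?_)
            match n with
            | 0 => exact hmM
            | 1 => exact haM
            | n + 2 => exact hrM
          have hF : ZFSet.IsFunc m.toZFSet D.κ.toZFSet
              (resS m.toZFSet fun l => (dm (psF a hr l)).rank.toZFSet) := by
            refine isFunc_resS _ _ _ fun x hx => ?_
            obtain ⟨l, hl, rfl⟩ := Ordinal.mem_toZFSet_iff.1 hx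
            obtain ⟨j, hj, hjb⟩ := cd_bdd hD (hc l hl)
            refine Ordinal.toZFSet_mem_toZFSet_iff.2 (lt_of_le_of_lt (ZFSet.rank_le_iff.2 ?_) hj)
            intro y hy
            obtain ⟨b, hb, rfl⟩ := Ordinal.mem_toZFSet_iff.1 (hjb y hy)
            rwa [Ordinal.rank_toZFSet]
          obtain ⟨j, hj, hjb⟩ := hD.grd.regκ m.toZFSet
            ((hordκ m).2 (lt_of_le_of_lt hmρ hρκ)) _ hFM hF
          have h1 : ∀ l < m, ∀ k ∈ dm (v l), k ∈ j.toZFSet := by
            intro l hl k hk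
            obtain ⟨j', hj', hjb'⟩ := cd_bdd hD (hc l hl)
            obtain ⟨b, hb, rfl⟩ := Ordinal.mem_toZFSet_iff.1 (hjb' k hk)
            have h2 := hjb _ (Ordinal.toZFSet_mem_toZFSet_iff.2 hl)
            rw [app_resS (Ordinal.toZFSet_mem_toZFSet_iff.2 hl),
              Ordinal.toZFSet_mem_toZFSet_iff] at h2
            have h3 := ZFSet.rank_lt_of_mem hk
            rw [Ordinal.rank_toZFSet] at h3
            exact Ordinal.toZFSet_mem_toZFSet_iff.2 (h3.trans h2)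
          refine ⟨j, hj, fun k hk => ?_⟩
          rcases hk with hk | ⟨l, hl, hk⟩
          · rw [← hv0] at hk
            exact h1 0 hm.bot_lt k hk
          · exact h1 l hl k hk
        have hδ : ∀ k, i ≤ k → k < D.κ → (psV S k.toZFSet).Nonempty → ∃ δ < D.μ k,
            (⋃₀ psV S k.toZFSet : ZFSet) = δ.toZFSet ∧ δ.toZFSet ∉ app D.Ef k.toZFSet ∧
            ∀ x ∈ psV S k.toZFSet, ∃ y ∈ psV S k.toZFSet, x ∈ y := by
          intro k hik hk hne
          have hU : ∀ x, x ∈ psV S k.toZFSet ↔ ∃ l < m, x ∈ app (v l) k.toZFSet := by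
            intro x
            unfold psV
            rw [ZFSet.mem_sUnion]
            constructor
            · rintro ⟨z, hz, hx⟩
              obtain ⟨w, hw, rfl⟩ := mem_imS.1 hz
              obtain ⟨l, hl, rfl⟩ := (hS w).1 hw
              exact ⟨l, hl, hx⟩
            · rintro ⟨l, hl, hx⟩
              exact ⟨_, mem_imS.2 ⟨v l, (hS _).2 ⟨l, hl, rfl⟩, rfl⟩, hx⟩
          obtain ⟨x0, hx0⟩ := hne
          obtain ⟨l0, hl0, hx0⟩ := (hU x0).1 hx0
          -- the new points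
          have hpt : ∀ l, l0 ≤ l → l < m → ∃ τ < D.μ k,
              (⋃₀ app (v (succ l)) k.toZFSet : ZFSet) = τ.toZFSet ∧
              τ.toZFSet ∈ app (v (succ l)) k.toZFSet ∧
              (∀ y ∈ app (v l) k.toZFSet, y ∈ τ.toZFSet) ∧
              (∀ f ∈ H l, ∀ η < D.μ k, app f k.toZFSet = η.toZFSet → η < τ) := by
            intro l h1 h2
            exact (hstep l (hlρ l h2) (hc l h2)).2.2.2.2 k hik hk
              ⟨x0, (hle l0 l h1 h2 k hk).1 hx0⟩
          have hm' : m ≤ succ ρ := hmρ.trans (Order.le_succ ρ)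
          obtain ⟨τm, hτm, -, -, hτm2, -⟩ := psT_spec hGH hDF hD hi hik hk
            (hχM _ (hH.mem m hm').1) (hH.sm m hm') ((hP5 _ hp0).2.2.1 k hk).2
          have hfl : ∀ l < m, ∀ τ : Ordinal.{0},
              (⋃₀ app (v (succ l)) k.toZFSet : ZFSet) = τ.toZFSet →
              (app (v (succ l)) k.toZFSet).Nonempty →
              ∃ f ∈ H m, app f k.toZFSet = τ.toZFSet := by
            intro l hl τ hτ hne
            refine ⟨resS (dm (v (succ l))) fun x => (⋃₀ app (v (succ l)) x : ZFSet), ?_, ?_⟩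
            · exact hH.cl m hm' _ (Tm.resS (g := fun _ u => (⋃₀ app (u 1) (u 0) : ZFSet))
                (Tm.dm (Tm.var 0)) (Tm.sUnion (Tm.app (Tm.var 1) (Tm.var 0)))) (fun _ => v (succ l))
                (fun _ => hvH l m hl hmρ)
            · rw [app_resS, hτ]
              by_contra hcon
              rw [hPB.2.2.2 _ _ hcon] at hne
              exact ZFSet.not_nonempty_empty hne
          have hUb : psV S k.toZFSet ⊆ τm.toZFSet := by
            intro x hx
            obtain ⟨l, hl, hx⟩ := (hU x).1 hx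
            have hlm : max l l0 < m := max_lt hl hl0
            obtain ⟨τ, hτ, e1, e2, e3, e4⟩ := hpt (max l l0) (le_max_right _ _) hlm
            have h1 := e3 x ((hle l _ (le_max_left _ _) hlm k hk).1 hx)
            obtain ⟨f, hf, hf2⟩ := hfl _ hlm τ e1 ⟨_, e2⟩
            have h2 := hτm2 f hf τ hτ hf2
            exact Ordinal.toZFSet_subset_toZFSet_iff.2 h2.le h1
          obtain ⟨δ, hδ1, hδ2⟩ := sUn_ord hUb
          have hδμ : δ < D.μ k := lt_of_le_of_lt hδ1 hτm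
          have hτU : ∀ l, l0 ≤ l → l < m → ∀ τ : Ordinal.{0},
              τ.toZFSet ∈ app (v (succ l)) k.toZFSet → τ.toZFSet ∈ psV S k.toZFSet :=
            fun l h1 h2 τ hτ => (hU _).2 ⟨succ l, hm.succ_lt h2, hτ⟩
          have hun : ∀ x ∈ psV S k.toZFSet, ∃ y ∈ psV S k.toZFSet, x ∈ y := by
            intro x hx
            obtain ⟨l, hl, hx⟩ := (hU x).1 hx
            have hlm : max l l0 < m := max_lt hl hl0
            obtain ⟨τ, hτ, e1, e2, e3, e4⟩ := hpt (max l l0) (le_max_right _ _) hlm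
            exact ⟨τ.toZFSet, hτU _ (le_max_right _ _) hlm τ e2,
              e3 x ((hle l _ (le_max_left _ _) hlm k hk).1 hx)⟩
          refine ⟨δ, hδμ, hδ2, ?_, hun⟩
          intro hE
          obtain ⟨δ', hδ', e, hI⟩ := (hD.eA k hk _).1 hE
          rw [← Ordinal.toZFSet_injective e] at hI
          refine hH.key m hm' hm k hik hk δ hδμ ?_ ?_ hI
          · intro ξ hξ
            have h1 : ξ.toZFSet ∈ (⋃₀ psV S k.toZFSet : ZFSet) := by
              rw [hδ2]
              exact Ordinal.toZFSet_mem_toZFSet_iff.2 hξ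
            obtain ⟨y, hy, hξy⟩ := ZFSet.mem_sUnion.1 h1
            obtain ⟨l, hl, hx⟩ := (hU y).1 hy
            have hlm : max l l0 < m := max_lt hl hl0
            obtain ⟨τ, hτ, e1, e2, e3, e4⟩ := hpt (max l l0) (le_max_right _ _) hlm
            obtain ⟨f, hf, hf2⟩ := hfl _ hlm τ e1 ⟨_, e2⟩
            refine ⟨f, hf, τ, hτ, hf2, ?_⟩
            have h2 := e3 y ((hle l _ (le_max_left _ _) hlm k hk).1 hx)
            exact Ordinal.toZFSet_mem_toZFSet_iff.1
              ((ZFSet.isOrdinal_toZFSet τ).isTransitive _ h2 hξy)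
          · intro f hf η hη hfη
            obtain ⟨l, hl, hfl'⟩ := hH.lim m hm' hm f hf
            have hlm : max l l0 < m := max_lt hl hl0
            obtain ⟨τ, hτ, e1, e2, e3, e4⟩ := hpt (max l l0) (le_max_right _ _) hlm
            have h1 := e4 f (hH.mono l _ (le_max_left _ _) (hlm.le.trans hm') hfl') η hη hfη
            rw [← Ordinal.toZFSet_mem_toZFSet_iff, ← hδ2]
            exact ZFSet.mem_sUnion.2 ⟨_, hτU _ (le_max_right _ _) hlm τ e2,
              Ordinal.toZFSet_mem_toZFSet_iff.2 h1⟩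
        obtain ⟨g1, g2, g3⟩ := psL_spec hPA hPB hPF hD hi hm hp0 v hS hSM hc hle
          (fun l hl => (ih l hl (hlρ l hl).le).2.2) hj hδ
        have e : v m = psL D.κ.toZFSet i.toZFSet p0 S := by
          show psF a hr m.toZFSet = _
          rw [psF_lim a hr hm, ha1, ha2, ha5]
        rw [e]
        exact ⟨g1, g2, g3⟩
  refine ⟨v, fun m hm => (main m hm).1, hv0, fun m hm => (main m hm).2.1,
    fun m hm => (main m hm).2.2, fun m hm => ?_⟩
  exact (hstep m hm (main m hm.le).1).2.1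

end CAA
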