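import Pool.Agent.H68.SF.LAll
import Pool.Agent.H1.CA.FM
import Pool.Agent.H1.CA.PS
import Pool.Agent.H44.CA.CA
import Pool.Agent.H36.CA.CC
import Pool.Agent.H8.CA.CE
import Pool.Agent.H44.CA.CF
import Pool.Agent.H75.CA.CG
import Pool.Agent.H33.CA.CH
import Pool.Agent.H74.CA.CI
import Pool.Agent.H11.CA.DA
import Pool.Agent.H86.CA.DB
import Pool.Agent.H11.CA.DC
import Pool.Agent.H90.CA.DD
import Pool.Agent.H90.CA.DE
import Pool.Agent.H3.CA.DF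
import Pool.Agent.H3.CA.DG
import Pool.Agent.H65.CA.DH
import Pool.Agent.H74.CA.DI
import Pool.Agent.H90.CA.DJ
import Pool.Agent.H90.CA.DK
import Pool.Agent.H51.CA.DL
import Pool.Agent.H92.CA.DO
import Pool.Agent.H84.CA.DQ
import Pool.Agent.H86.CA.DS
import Pool.Agent.H91.CA.DT
import Pool.Agent.H91.CA.DU
import Pool.Agent.H14.CA.GC
import Pool.Agent.H90.CA.GH
import Pool.Agent.H90.CA.HA
import Pool.Agent.H90.CA.HB
import Pool.Agent.H49.CA.HD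
import Pool.Agent.H89.CA.HE
import Pool.Agent.H60.CA.HF
import Pool.Agent.H34.CA.HG
import Pool.Agent.H35.CA.MA
import Pool.Agent.H86.CA.MB
import Pool.Agent.H94.CA.MC
import Pool.Agent.H44.CA.MD
import Pool.Agent.H8.CA.ME
import Pool.Agent.H75.CA.MF
import Pool.Agent.H83.CA.MG
import Pool.Agent.H23.CA.PA
import Pool.Agent.H65.CA.PB
import Pool.Agent.H69.CA.PC
import Pool.Agent.H66.CA.PE
import Pool.Agent.H87.CA.PF
import Pool.Agent.H87.CA.PG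
import Pool.Agent.H94.CA.PH
import Pool.Agent.H94.CA.PI
import Pool.Agent.H94.CA.PJ
import Pool.Agent.H87.CA.PK
import Pool.Agent.H32.CA.PL
import Pool.Agent.H74.CA.PM
import Pool.Agent.H36.CA.PN
import Pool.Agent.H36.CA.PO
import Pool.Agent.H34.CA.SA
import Pool.Agent.H84.CA.SB
import Pool.Agent.H60.CA.SC
import Pool.Agent.H84.CA.SD
import Pool.Agent.H49.CA.SE

/-!
# MP_ceca85_lc: assembly of the forcing part
-/

set_option linter.unusedVariables false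

namespace CAA

open SF

namespace All

theorem aFM : T_FM := SF.H20.fm
theorem aDA : T_DA := pf_DA
theorem aDB : T_DB := pf_DB
theorem aDC : T_DC := pf_DC
theorem aDD : T_DD := Pool.Agent.H90.CA.dd
theorem aDE : T_DE := Pool.Agent.H90.CA.de
theorem aDF : T_DF := pf_DF
theorem aDG : T_DG := pf_DG
theorem aDH : T_DH := pf_DH aDF aDG
theorem aDJ : T_DJ := Pool.Agent.H90.CA.dj
theorem aDI : T_DI := pf_DI aDJ
theorem aDK : T_DK := Pool.Agent.H90.CA.dk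
theorem aDL : T_DL := pf_DL
theorem aDO : T_DO := pf_DO
theorem aDU : T_DU := pf_DU
theorem aDQ : T_DQ := pf_DQ aDU aDI
theorem aDS : T_DS := pf_DS SF.H68.aFC SF.H68.aFD SF.H68.aFG SF.H68.aFH SF.H68.aFI
theorem aDT : T_DT := pf_DT aDS
theorem aGC : T_GC := pf_GC
theorem aGH : T_GH := Pool.Agent.H90.CA.pf_GH aGC aDH aDU
theorem aHA : T_HA := Pool.Agent.H90.CA.pf_HA aDB
theorem aHB : T_HB := Pool.Agent.H90.CA.pf_HB aHA aDC aDE aDF aDG aGH
theorem aHD : T_HD := pf_HD aHB aDC aDE aDF aGH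
theorem aHE : T_HE := pf_HE aHA aDD
theorem aHF : T_HF := pf_HF aHA aHB aHD aHE aDC aDJ aDK aDL aGH
theorem aHG : T_HG := pf_HG aHB aHF aDE aGH
theorem aSB : T_SB := pf_SB
theorem aSC : T_SC := pf_SC aSB aGH aDB aDC aDE
theorem aSD : T_SD := pf_SD aDJ aDK aDL aGH
theorem aSE : T_SE := pf_SE aSB aSD aDG aDF aGH aDB
theorem aSA : T_SA := pf_SA aSC aSE aGH aDB
theorem aPA : T_PA := pf_PA
theorem aPB : T_PB := pf_PB
theorem aPC : T_PC := pf_PC
theorem aPE : T_PE := pf_PE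
theorem aPF : T_PF := pf_PF aPA aPB aPC aGH
theorem aPG : T_PG := pf_PG aPA aPB aPC aPF
theorem aPS : T_PS := pf_PS aPA aPB aPF aHG aGH aDF SF.H68.aRKT
theorem aPH : T_PH := pf_PH aPB aPC aPE aPF aPS aDF aDI aGH
theorem aPI : T_PI := pf_PI aPB aPC aPF aPH SF.H68.aFE
theorem aPJ : T_PJ := pf_PJ aPC aPF aPI aDF aDS aGH aFM
theorem aPK : T_PK := pf_PK aPB aPC aPF aPG aPI aDF aDO aDS aGH SF.H68.aFI aFM
theorem aPL : T_PL := pf_PL aPB aPF aPI aDS aFM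
theorem aPM : T_PM := pf_PM aPA aPB aPC aPF aPG SF.H68.aFI SF.H68.aFN
theorem aPN : T_PN := pf_PN aPF aPM
theorem aPO : T_PO := pf_PO aDF aGH aSA
theorem aCA : T_CA := pf_CA
theorem aCC : T_CC := pf_CC aCA aPG
theorem aCE : T_CE := pf_CE aPC aPF aPG SF.H68.aFI
theorem aCF : T_CF :=
  pf_CF aCE aDU aDQ aPF aPG aPK SF.H68.aLHT SF.H68.aFI SF.H68.aFJ SF.H68.aFL
theorem aCG : T_CG :=
  CAA.H75.cg aPA aPB aPC aPF aPG aPH aPN aPO aCC aCF aDA aDF aDS aGH aFM SF.H68.aFE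
theorem aCH : T_CH := pf_CH aPC aPF aGH aDU SF.H68.aFI SF.H68.aFL
theorem aCI : T_CI := pf_CI aCF aPJ
theorem aMA : T_MA := pf_MA aPA aPB aPC aPF aPG aPN aCC aCF aDA aDS
theorem aMB : T_MB := pf_MB aPB aPC aPF aCE aCF aMA SF.H68.aFN SF.H68.aFI
theorem aMC : T_MC := pf_MC aPB aPC aPF aPG aPN aCC aCF aMA aMB aDT
theorem aMD : T_MD := pf_MD aDF aDI aGH
theorem aME : T_ME := pf_ME aPB aPC aPF aPG aCA
theorem aMF : T_MF := CAA.H75.mf aPA aPB aPC aPE aPF aPG aPL aPN aCC aCF aMA aMD aME aDA aDS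
  SF.H68.aFI SF.H68.aFJ SF.H68.aFL
theorem aMG : T_MG := pf_MG aCF aMF aDO

theorem aM1 : F_M1 := pf_M1 aPG aCF aCH aGH
theorem aM2 : F_M2 := pf_M2 aCF
theorem aM3 : F_M3 := pf_M3 aPG aCG
theorem aM4 : F_M4 := pf_M4 aCG aCI
theorem aM5 : F_M5 := pf_M5 aMC
theorem aM6 : F_M6 := pf_M6 aCE
theorem aM7 : F_M7 := pf_M7 aMG

end All

end CAA
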