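import Pool.Agent.H37.CA.Targets2

/-!
# (CNU) few characters have an inverse which is a conjugate
-/

set_option autoImplicit false

open NumberField

namespace Pool.Agent.H1.CA

open Pool.Agent.H37.CA Pool.Agent.H37.CV Pool.Agent.H28.RC Pool.Agent.H25 Pool.Agent.H25.HK

theorem pf_CNU (hNGY : T_NGY) (hCFY : T_CFY) (hHQ : T_HQ) : T_CNU := by
  classical
  intro F _ _ _ _ ε hε
  obtain ⟨c, C₁, q₁, hc, hHQ⟩ := hHQ F
  obtain ⟨C, q₂, hCF⟩ := hCFY F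
  refine ⟨max (max q₁ q₂) ⌈(Module.finrank ℚ F : ℝ) * C / (ε * c)⌉₊, ?_⟩
  intro q hq hqq L _ _ _ _ β hβ
  have hq1 : q₁ ≤ q := (le_max_left _ _).trans ((le_max_left _ _).trans hqq)
  have hq2 : q₂ ≤ q := (le_max_right _ _).trans ((le_max_left _ _).trans hqq)
  have hq3 : (Module.finrank ℚ F : ℝ) * C / (ε * c) ≤ q :=
    (Nat.le_ceil _).trans (by exact_mod_cast (le_max_right _ _).trans hqq)
  obtain ⟨hnc, -⟩ := hHQ q hq hq1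
  have hq0 : (0 : ℝ) < q := by exact_mod_cast hq.pos
  have hncpos : 0 < (nc (qi F q) (qi F q) : ℝ) := lt_of_lt_of_le (by positivity) hnc
  have hfin : (Ch (qi F q) (qi F q)).Finite :=
    Set.finite_of_ncard_pos (by exact_mod_cast hncpos)
  let S : (F ≃ₐ[ℚ] F) → Set (Ideal (𝓞 F) → ℂ) := fun σ =>
    {ψ | ψ ∈ Ch (qi F q) (qi F q) ∧ ∀ I : Ideal (𝓞 F), I ≠ ⊥ → I ⊔ qi F q = ⊤ →
      ψ (cj σ I) * ψ I = 1}
  have hS : ∀ σ, (S σ).Finite := fun σ => hfin.subset fun ψ h => h.1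
  have hsub : (Nsd (HF F L))ᶜ ⊆ β '' (⋃ σ, S σ) := by
    intro φ hφ
    obtain ⟨ψ, hψ, rfl⟩ := hβ.1.surjOn (Set.mem_univ φ)
    obtain ⟨σ, hσ⟩ := hNGY F L q hq β hβ ψ hψ hφ
    exact ⟨ψ, Set.mem_iUnion.2 ⟨σ, hψ, hσ⟩, rfl⟩
  have hUf : (⋃ σ, S σ).Finite := Set.finite_iUnion hS
  have h1 : ((Nsd (HF F L))ᶜ.ncard : ℝ) ≤ ∑ σ : F ≃ₐ[ℚ] F, ((S σ).ncard : ℝ) := by
    have h2 : (Nsd (HF F L))ᶜ.ncard ≤ ∑ σ : F ≃ₐ[ℚ] F, (S σ).ncard :=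
      (Set.ncard_le_ncard hsub (hUf.image β)).trans ((Set.ncard_image_le hUf).trans
        (Set.ncard_iUnion_le_of_fintype S))
    exact_mod_cast h2
  have h3 : ∑ σ : F ≃ₐ[ℚ] F, ((S σ).ncard : ℝ) ≤
      (Module.finrank ℚ F : ℝ) * (C * (q : ℝ) ^ ((Module.finrank ℚ F : ℝ) / 2)) := by
    refine (Finset.sum_le_sum fun σ _ => hCF q hq hq2 σ).trans ?_
    rw [Finset.sum_const, Finset.card_univ, nsmul_eq_mul, ← Nat.card_eq_fintype_card,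
      IsGalois.card_aut_eq_finrank ℚ F]
  refine h1.trans (h3.trans ?_)
  refine le_trans ?_ (mul_le_mul_of_nonneg_left hnc hε.le)
  rw [Real.rpow_add hq0, Real.rpow_one]
  rw [div_le_iff₀ (by positivity)] at hq3
  have h4 : 0 < (q : ℝ) ^ ((Module.finrank ℚ F : ℝ) / 2) := Real.rpow_pos_of_pos hq0 _
  nlinarith [mul_le_mul_of_nonneg_right hq3 h4.le]

end Pool.Agent.H1.CA
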