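import Pool.Agent.H9.SF.FDefs
import Pool.Agent.H68.SF.LT4

/-!
# MP_ceca85_lc: the forcing part. Definitions

`M` is a countable transitive model of `ZFC⁻` (a class `V → Prop`), `K` is the set `L_κ`. All
objects are real sets. Ordinals are used as sets (`i ∈ kp` is `i < κ`).
-/

set_option linter.unusedVariables false

open Ordinal Set
open scoped ZFSet

namespace SF

namespace CA

/-- `x` is empty or the image of `C` under a function of `M` -/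
def Sm (M : V → Prop) (C x : V) : Prop := x = ∅ ∨ ∃ f, M f ∧ Onto f C x

/-- `q` is a closed bounded set of ordinals: empty or with a maximum -/
structure ClB (q : V) : Prop where
  ord : ∀ x ∈ q, IsOrd x
  bdd : q = ∅ ∨ ∃ m ∈ q, ∀ x ∈ q, x ∈ m ∨ x = m
  cls : ∀ α, IsOrd α → α ≠ ∅ → (∀ β ∈ α, ∃ x ∈ q, β ∈ x ∧ x ∈ α) → α ∈ q

/-- `D` is a club subset of the ordinal `m` -/
structure Clu (m D : V) : Prop where
  sub : D ⊆ m
  unb : ∀ x ∈ m, ∃ y ∈ D, x ∈ y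
  cls : ∀ α ∈ m, α ≠ ∅ → (∀ β ∈ α, ∃ x ∈ D, β ∈ x ∧ x ∈ α) → α ∈ D

/-- `q` is an end extension of `q'` -/
def EE (q q' : V) : Prop := q' ⊆ q ∧ ∀ x ∈ q, (∃ y ∈ q', x ∈ y) → x ∈ q'

/-- coordinatewise end extension; `app p k = ∅` if `k` is not in the domain of `p` -/
def LeC (kp p p' : V) : Prop := ∀ k ∈ kp, EE (app p k) (app p' k)

/-- the restriction of `p` to `S` -/
noncomputable def rs (p S : V) : V := p.sep fun z => fst z ∈ S

/-- `p` on `S` and `p'` outside `S` -/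
noncomputable def mg (p S p' : V) : V := rs p S ∪ p'.sep fun z => fst z ∉ S

/-- `p` with the value at `k` replaced by `q` -/
noncomputable def upd (p k q : V) : V := insert (ZFSet.pair k q) (p.sep fun z => fst z ≠ k)

/-- the fiber of the filter `G` at `k` -/
noncomputable def fib (G k : V) : V := imS G fun p => app p k

/-- all the pairs `(k, p(k))`, `k < κ`, `p ∈ G` -/
noncomputable def XG (kp G : V) : V :=
  imS (ZFSet.prod kp G) fun z => ZFSet.pair (fst z) (app (snd z) (fst z))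

/-- the set of the `k < κ` with `p(k)` not in the fiber of `G` -/
def Bad (kp G p : V) : Set V := {k | k ∈ kp ∧ app p k ∉ fib G k}

/-- the finite modification class of `G` -/
noncomputable def HG (P kp G : V) : V := P.sep fun p => (Bad kp G p).Finite

/-- the restrictions to `S` of the elements of `A` -/
noncomputable def rsI (A S : V) : V := imS A fun p => rs p S

/-- the coordinatewise order on the set `A` -/
noncomputable def leS (kp A : V) : V := (ZFSet.prod A A).sep fun z => LeC kp (fst z) (snd z)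

/-! ### the ground data -/

/-- the data: the model `M`, `κ`, `K = L_κ`, the sequences `C_i = L_(γ_i)`, `μ_i`, `E_i`
(`i < κ`) -/
structure Gd : Type 1 where
  M : V → Prop
  kp : V
  K : V
  C : V
  mu : V
  E : V

namespace Gd

variable (g : Gd)

/-- the `k`-th coordinate forcing -/
noncomputable def Q (k : V) : V :=
  g.K.sep fun q => q ⊆ app g.mu k ∧ ClB q ∧ ∀ x ∈ q, x ∉ app g.E k

/-- the conditions: functions in `L_κ` -/
noncomputable def P : V :=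
  g.K.sep fun p => Svl p ∧ ∀ z ∈ p, ∃ k ∈ g.kp, ∃ q ∈ g.Q k, z = ZFSet.pair k q

/-- the order of the forcing -/
noncomputable def r : V := leS g.kp g.P

/-- strategic closure -/
def SG : Prop := ∀ i0 ∈ g.kp, ∀ ρ ∈ app g.mu i0, ∀ p0 ∈ g.P, ∀ Ψ, g.M Ψ →
  ZFSet.IsFunc (ZFSet.prod g.P ρ) g.P Ψ →
  (∀ v ∈ g.P, ∀ m ∈ ρ, LeC g.kp (app Ψ (ZFSet.pair v m)) v ∧
    ∀ k ∈ i0, app (app Ψ (ZFSet.pair v m)) k = app v k) →
  ∃ s, g.M s ∧ ZFSet.IsFunc (insert ρ ρ) g.P s ∧ app s ∅ = p0 ∧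
    (∀ m ∈ insert ρ ρ, ∀ l ∈ m, LeC g.kp (app s m) (app s l)) ∧
    (∀ m ∈ insert ρ ρ, ∀ k ∈ i0, app (app s m) k = app p0 k) ∧
    ∀ m ∈ ρ, LeC g.kp (app s (insert m m)) (app Ψ (ZFSet.pair (app s m) m))

/-- the properties of the ground data which are used in the forcing part -/
structure Ok : Prop where
  ctb : {x | g.M x}.Countable
  zfc : ZFCm g.M
  mK : g.M g.K
  mC : g.M g.C
  mmu : g.M g.mu
  mE : g.M g.E
  okp : IsOrd g.kp
  Kt : g.K.IsTransitive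
  zK : ZFm (· ∈ g.K)
  Ko : ∀ x, IsOrd x → (x ∈ g.K ↔ x ∈ g.kp)
  Ksub : ∀ x, g.M x → ∀ y ∈ g.K, x ⊆ y → x ∈ g.K
  Kpow : ∀ y ∈ g.K, ∃ z ∈ g.K, ∀ x, g.M x → x ⊆ y → x ∈ z
  Kreg : ∀ y ∈ g.K, ∀ f, g.M f → ZFSet.IsFunc y g.K f → f ∈ g.K
  Cf : ZFSet.IsFunc g.kp g.K g.C
  muf : ZFSet.IsFunc g.kp g.kp g.mu
  Ef : ZFSet.IsFunc g.kp g.K g.E
  Ct : ∀ i ∈ g.kp, (app g.C i).IsTransitive
  Ci : ∀ i ∈ g.kp, i ∈ app g.C i
  Cp : ∀ i ∈ g.kp, ∀ x ∈ app g.C i, ∀ y ∈ app g.C i, ZFSet.pair x y ∈ app g.C i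
  Cm : ∀ i ∈ g.kp, ∀ j ∈ i, app g.C j ∈ app g.C i ∧ app g.mu j ∈ app g.C i
  mreg : ∀ i ∈ g.kp, ∀ f, g.M f → ZFSet.IsFunc (app g.C i) (app g.mu i) f →
    ∃ δ ∈ app g.mu i, ∀ x ∈ app g.C i, app f x ∈ δ
  meq : ∀ i ∈ g.kp, (∀ ρ ∈ app g.mu i, Sm g.M (app g.C i) ρ) ∧
    ∃ ρ ∈ app g.mu i, Sm g.M ρ (app g.C i)
  mlim : ∀ i ∈ g.kp, app g.mu i ≠ ∅ ∧ ∀ x ∈ app g.mu i, insert x x ∈ app g.mu i
  Es : ∀ i ∈ g.kp, ∀ x ∈ app g.E i, x ∈ app g.mu i ∧ x ≠ ∅ ∧ ∀ y ∈ x, insert y y ∈ x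
  pc : ∀ i ∈ g.kp, ∀ p ∈ g.P, (∀ z ∈ p, fst z ∈ i) → p ∈ app g.C i
  stat : ∀ i ∈ g.kp, ∀ D, g.M D → Clu (app g.mu i) D → ∃ δ ∈ app g.E i, δ ∈ D
  sg : g.SG

/-- `G` is a generic filter -/
def Gn (G : V) : Prop := Gen g.M g.P g.r G

end Gd

/-! ### coding -/

/-- `i` is active; `t` is the bookkeeping function, `X` a set of pairs `(j, q)`, `H` a set -/
inductive Act (kp t X H : V) : V → Prop
  | base (i : V) : i ∈ kp → snd (app t i) = ∅ → Act kp t X H i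
  | one (i j q : V) : i ∈ kp → j ∈ i → snd (app t i) = ZFSet.pair (nS 1) (ZFSet.pair j q) →
      fst (app t i) ∈ fst (app t j) → Act kp t X H j → ZFSet.pair j q ∈ X → Act kp t X H i
  | two (i p : V) : i ∈ kp → p ∈ H → snd (app t i) = ZFSet.pair (nS 2) p → Act kp t X H i

/-- `A_β`: the set of the active `i` of level at least `β` -/
noncomputable def Ab (kp t X H β : V) : V := kp.sep fun i => Act kp t X H i ∧ β ⊆ fst (app t i)

/-- `a_β` -/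
noncomputable def ab (kp t X H β : V) : V := X.sep fun z => fst z ∈ Ab kp t X H β

/-- more data: the height `θ` of `M`, the bookkeeping -/
structure Gd2 : Type 1 extends Gd where
  θ : Ordinal.{0}
  t : V

namespace Gd2

variable (g : Gd2)

structure Ok : Prop extends toGd : g.toGd.Ok where
  M_eq : ∀ x, g.M x ↔ x ∈ LA ∅ g.θ
  Z : ∀ α < g.θ, ∃ ρ, α < ρ ∧ ρ < g.θ ∧ ZFm (· ∈ LA ∅ ρ)
  mt : g.M g.t
  tf : ZFSet.IsFunc g.kp g.K g.t
  tl : ∀ i ∈ g.kp, IsOrd (fst (app g.t i)) ∧ (fst (app g.t i) ∈ i ∨ fst (app g.t i) = i)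
  tc : ∀ b ∈ g.kp, ∀ y ∈ g.K, ∀ i0 ∈ g.kp, ∃ i ∈ g.kp, i0 ∈ i ∧ app g.t i = ZFSet.pair b y
  /-- cofinality of limit ordinals -/
  cf : ∀ β ∈ g.kp, β ≠ ∅ → (∀ x ∈ β, insert x x ∈ β) →
    ∃ ν ∈ g.kp, ∃ c, g.M c ∧ ZFSet.IsFunc ν β c ∧ (∀ x ∈ β, ∃ j ∈ ν, x ∈ app c j) ∧
      ∃ α0 ∈ β, ∀ i ∈ g.kp, α0 ⊆ i → Sm g.M (app g.C i) ν

/-- `A_β(G)` -/
noncomputable def A (G β : V) : V := Ab g.kp g.t (XG g.kp G) (HG g.P g.kp G) β

/-- `a_β(G)` -/
noncomputable def a (G β : V) : V := ab g.kp g.t (XG g.kp G) (HG g.P g.kp G) β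

/-- the model `B_β` -/
def B (G β : V) (x : V) : Prop := x ∈ LA (g.a G β) g.θ

/-- the model `N_β` -/
noncomputable def N (G β : V) : V := (LA (g.a G β) g.θ).sep fun x => x.rank.toZFSet ∈ g.kp

end Gd2

end CA

end SF
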