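import Pool.Agent.H1.CA.FD

/-!
# MP_ceca85_lc: the forcing part. Targets
-/

set_option linter.unusedVariables false

open Ordinal Set
open scoped ZFSet

namespace CAA

open SF

/-! ## Part P: the product -/

/-- PA: end extensions and closed bounded sets -/
def T_PA : Prop :=
  (∀ q, EE q q) ∧ (∀ a b c, EE a b → EE b c → EE a c) ∧ (∀ q, EE q ∅) ∧
  (∀ s q q' : V, (∀ x ∈ s, IsOrd x) → EE s q → EE s q' → EE q q' ∨ EE q' q) ∧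
  (∀ q q', EE q q' → EE q' q → q = q') ∧
  (∀ q x : V, ClB q → IsOrd x → (∀ y ∈ q, y ∈ x) → ClB (insert x q) ∧ EE (insert x q) q) ∧
  (∀ q q0 q1 x : V, ClB q → ClB q0 → ClB q1 → x ∈ q0 → x ∈ q1 → (∀ y ∈ q0, y ∈ x ∨ y = x) →
    (∀ y ∈ q1, y ∈ x ∨ y = x) → EE q q0 →
    ClB (q1 ∪ (q \ q0)) ∧ EE (q1 ∪ (q \ q0)) q1 ∧ q0 ∪ ((q1 ∪ (q \ q0)) \ q1) = q ∧
      (q1 ∪ (q \ q0)) \ q1 = q \ q0) ∧
  ∀ q q0 q1 q' x : V, ClB q → ClB q0 → ClB q1 → x ∈ q0 → x ∈ q1 →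
    (∀ y ∈ q0, y ∈ x ∨ y = x) → (∀ y ∈ q1, y ∈ x ∨ y = x) → ClB q' → EE q q0 → EE q' q0 →
    (EE q q' ↔ EE (q1 ∪ (q \ q0)) (q1 ∪ (q' \ q0)))

/-- PB: values of restrictions, mergings and updates -/
def T_PB : Prop :=
  (∀ p S, Svl p → Svl (rs p S) ∧ ∀ k, (k ∈ S → app (rs p S) k = app p k) ∧
    (k ∉ S → app (rs p S) k = ∅)) ∧
  (∀ p S p', Svl p → Svl p' → Svl (mg p S p') ∧ ∀ k, (k ∈ S → app (mg p S p') k = app p k) ∧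
    (k ∉ S → app (mg p S p') k = app p' k)) ∧
  (∀ p k q, Svl p → Svl (upd p k q) ∧ app (upd p k q) k = q ∧
    ∀ j, j ≠ k → app (upd p k q) j = app p j) ∧
  ∀ p k, k ∉ dm p → app p k = ∅

/-- PC: definability -/
def T_PC : Prop :=
  Dfb ZFm (fun _ v => ClB (v 0)) ∧ Dfb ZFm (fun _ v => Clu (v 0) (v 1)) ∧
  Dfb ZFm (fun _ v => EE (v 0) (v 1)) ∧ Dfb ZFm (fun _ v => LeC (v 0) (v 1) (v 2)) ∧
  Tm ZFm (fun _ v => rs (v 0) (v 1)) ∧ Tm ZFm (fun _ v => mg (v 0) (v 1) (v 2)) ∧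
  Tm ZFm (fun _ v => upd (v 0) (v 1) (v 2)) ∧ Tm ZFm (fun _ v => fib (v 0) (v 1)) ∧
  Tm ZFm (fun _ v => XG (v 0) (v 1)) ∧ Tm ZFm (fun _ v => rsI (v 0) (v 1)) ∧
  Tm ZFm (fun _ v => leS (v 0) (v 1)) ∧ Tm ZFm (fun _ v => Qs (v 0) (v 1) (v 2) (v 3)) ∧
  Tm ZFm (fun _ v => Ps (v 0) (v 1) (v 2) (v 3))

/-- PD: definability of the finite modification class -/
def T_PD : Prop := Tm ZFm (fun _ v => HG (v 0) (v 1) (v 2))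

/-- PE: choice functions in models of `ZFC⁻` -/
def T_PE : Prop := ∀ M : V → Prop, ZFCm M → ∀ a b R, M a → M b → M R →
  (∀ x ∈ a, ∃ y ∈ b, ZFSet.pair x y ∈ R) →
  ∃ f, M f ∧ ZFSet.IsFunc a b f ∧ ∀ x ∈ a, ZFSet.pair x (app f x) ∈ R

/-- PF: the forcing notion -/
def T_PF : Prop := ∀ g : PD, g.Ok →
  IsPo g.P g.r ∧ g.M g.P ∧ g.M g.r ∧ ∅ ∈ g.P ∧
  (∀ k ∈ g.kp, g.Q k ∈ g.K ∧ ∅ ∈ g.Q k) ∧
  (∀ p ∈ g.P, Svl p ∧ (∀ k ∈ g.kp, app p k ∈ g.Q k) ∧ ∀ k, k ∉ g.kp → app p k = ∅) ∧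
  (∀ p ∈ g.P, ∀ S, g.M S → rs p S ∈ g.P) ∧
  (∀ p ∈ g.P, ∀ p' ∈ g.P, ∀ S, g.M S → mg p S p' ∈ g.P) ∧
  (∀ p ∈ g.P, ∀ k ∈ g.kp, ∀ q ∈ g.Q k, upd p k q ∈ g.P) ∧
  (∀ p p', ZFSet.pair p p' ∈ g.r ↔ p ∈ g.P ∧ p' ∈ g.P ∧ LeC g.kp p p') ∧
  (∀ p ∈ g.P, ∀ p' ∈ g.P,
    (∀ k ∈ g.kp, EE (app p k) (app p' k) ∨ EE (app p' k) (app p k)) →
    ∃ s ∈ g.P, LeC g.kp s p ∧ LeC g.kp s p') ∧
  (∀ k ∈ g.kp, ∀ q ∈ g.Q k, ∀ x ∈ app g.mu k, ∃ y ∈ app g.mu k, x ∈ y ∧ (∀ z ∈ q, z ∈ y) ∧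
    insert y q ∈ g.Q k ∧ EE (insert y q) q)

/-- PG: the fibers of a generic filter -/
def T_PG : Prop := ∀ g : PD, g.Ok → ∀ G, g.Gn G →
  (∀ p ∈ g.P, (p ∈ G ↔ ∀ k ∈ g.kp, app p k ∈ fib G k)) ∧
  (∀ k ∈ g.kp, (∀ q ∈ fib G k, q ∈ g.Q k) ∧ ∅ ∈ fib G k ∧
    (∀ q ∈ fib G k, ∀ q' ∈ g.Q k, EE q q' → q' ∈ fib G k) ∧
    (∀ q ∈ fib G k, ∀ q' ∈ fib G k, EE q q' ∨ EE q' q) ∧
    (∀ x ∈ app g.mu k, ∃ q ∈ fib G k, ∃ y ∈ q, x ∈ y ∧ ∀ z ∈ q, z ∈ y ∨ z = y) ∧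
    Clu (app g.mu k) (⋃₀ fib G k : ZFSet) ∧ ∀ x ∈ (⋃₀ fib G k : ZFSet), x ∉ app g.E k) ∧
  (∀ k q, ZFSet.pair k q ∈ XG g.kp G ↔ k ∈ g.kp ∧ q ∈ fib G k) ∧
  (∀ z ∈ XG g.kp G, ∃ k ∈ g.kp, ∃ q ∈ g.Q k, z = ZFSet.pair k q) ∧
  (∀ p ∈ G, p ∈ HG g.P g.kp G) ∧
  (∀ p ∈ g.P, p ∈ HG g.P g.kp G ↔ (Bad g.kp G p).Finite) ∧
  ∀ p ∈ HG g.P g.kp G, ∀ T : Set V, (∀ k ∈ T, k ∉ g.kp ∨ app p k ∈ fib G k) →
    ∃ p' ∈ G, (∀ k ∈ T, app p' k = app p k) ∧ ∀ z, fst z ∈ T → (z ∈ p' ↔ z ∈ p)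

/-- `D` is a family, indexed by `J`, of sets of conditions which are open, and dense below `p0` -/
def DenF (g : PD) (p0 J D : V) : Prop := ∀ j ∈ J, app D j ⊆ g.P ∧
  (∀ p ∈ app D j, ∀ q ∈ g.P, LeC g.kp q p → q ∈ app D j) ∧
  ∀ p ∈ g.P, LeC g.kp p p0 → ∃ q ∈ app D j, LeC g.kp q p

/-- PH: reduction of dense sets -/
def T_PH : Prop := ∀ g : PD, g.Ok → ∀ i0 ∈ g.kp, ∀ p0 ∈ g.P, ∀ J D, g.M J →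
  Sm g.M (app g.C i0) J → g.M D → DenF g p0 J D →
  ∃ v ∈ g.P, LeC g.kp v p0 ∧ (∀ k ∈ i0, app v k = app p0 k) ∧
    ∀ j ∈ J, ∀ u ∈ g.P, (∀ z ∈ u, fst z ∈ i0) → (∀ k ∈ i0, EE (app u k) (app p0 k)) →
      ∃ u' ∈ g.P, (∀ z ∈ u', fst z ∈ i0) ∧ LeC g.kp u' u ∧ mg u' i0 v ∈ app D j

/-- PI: reduction of dense sets for a generic filter -/
def T_PI : Prop := ∀ g : PD, g.Ok → ∀ G, g.Gn G → ∀ i0 ∈ g.kp, ∀ p0 ∈ G, ∀ J D, g.M J →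
  Sm g.M (app g.C i0) J → g.M D → DenF g p0 J D →
  ∃ v ∈ G, LeC g.kp v p0 ∧
    ∀ j ∈ J, ∃ u' ∈ G, (∀ z ∈ u', fst z ∈ i0) ∧ mg u' i0 v ∈ G ∧ mg u' i0 v ∈ app D j

/-- PJ: regularity of `μ_i` in the extension -/
def T_PJ : Prop := ∀ g : PD, g.Ok → ∀ G, g.Gn G → ∀ i ∈ g.kp, ∀ f, Ext g.M G f →
  ZFSet.IsFunc (app g.C i) (app g.mu i) f → ∃ δ ∈ app g.mu i, ∀ x ∈ app g.C i, app f x ∈ δ

/-- PK: `κ` is inaccessible in the extension -/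
def T_PK : Prop := ∀ g : PD, g.Ok → ∀ G, g.Gn G → ∀ κ : Ordinal.{0}, g.kp = κ.toZFSet →
  Inac (Ext g.M G) κ

/-- PL: lower bounds on a tail -/
def T_PL : Prop := ∀ g : PD, g.Ok → ∀ G, g.Gn G → ∀ i0 ∈ g.kp, ∀ J, g.M J →
  Sm g.M (app g.C i0) J → ∀ f, Ext g.M G f → (∀ j ∈ J, app f j ∈ G) →
  ∃ v ∈ G, ∀ j ∈ J, ∀ k ∈ g.kp, k ∉ i0 → EE (app v k) (app (app f j) k)

/-- PM: modification at one coordinate -/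
def T_PM : Prop := ∀ g : PD, g.Ok → ∀ G, g.Gn G → ∀ k ∈ g.kp, ∀ q ∈ g.Q k,
  ∃ G', g.Gn G' ∧ (∀ j ∈ g.kp, j ≠ k → fib G' j = fib G j) ∧ q ∈ fib G' k ∧
    (∀ x, Ext g.M G' x ↔ Ext g.M G x) ∧ HG g.P g.kp G' = HG g.P g.kp G ∧
    ∀ W : V → Prop, ZFm W → (∀ x ∈ g.K, W x) → (W (fib G k) ↔ W (fib G' k))

/-- PN: finite modifications -/
def T_PN : Prop := ∀ g : PD, g.Ok → ∀ G, g.Gn G → ∀ F : Set V, F.Finite → (∀ k ∈ F, k ∈ g.kp) →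
  ∀ p ∈ g.P, ∃ G', g.Gn G' ∧ (∀ j ∈ g.kp, j ∉ F → fib G' j = fib G j) ∧
    (∀ k ∈ F, app p k ∈ fib G' k) ∧ (∀ x, Ext g.M G' x ↔ Ext g.M G x) ∧
    HG g.P g.kp G' = HG g.P g.kp G ∧
    ∀ W : V → Prop, ZFm W → (∀ x ∈ g.K, W x) → ∀ k ∈ F, (W (fib G k) ↔ W (fib G' k))

/-- PO: closure points in `E_i` -/
def T_PO : Prop := ∀ g : PD, g.Ok → ∀ i ∈ g.kp, ∀ w, g.M w →
  ZFSet.IsFunc (app g.mu i) (app g.mu i) w → ∃ δ ∈ app g.E i, ∀ j ∈ δ, app w j ∈ δ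

/-! ## Part C: coding -/

/-- CA: the active set depends only on the fibers at active places of larger level -/
def T_CA : Prop := ∀ kp t X X' H β : V, (∀ i ∈ kp, IsOrd (fst (app t i))) → IsOrd β →
  (∀ j ∈ kp, Act kp t X H j → β ∈ fst (app t j) → ∀ q, (ZFSet.pair j q ∈ X ↔ ZFSet.pair j q ∈ X')) →
  Ab kp t X H β = Ab kp t X' H β ∧
  ((∀ z ∈ X, IsPr z) → (∀ z ∈ X', IsPr z) →
    (∀ j ∈ Ab kp t X H β, ∀ q, (ZFSet.pair j q ∈ X ↔ ZFSet.pair j q ∈ X')) →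
    ab kp t X H β = ab kp t X' H β)

/-- CB: definability -/
def T_CB : Prop := Tm ZFm (fun _ v => Ab (v 0) (v 1) (v 2) (v 3) (v 4)) ∧
  Tm ZFm (fun _ v => ab (v 0) (v 1) (v 2) (v 3) (v 4))

/-- CC: the codes of two generic filters -/
def T_CC : Prop := ∀ g : CD, g.Ok → ∀ G G', g.Gn G → g.Gn G' →
  HG g.P g.kp G' = HG g.P g.kp G → ∀ β ∈ g.kp,
  (∀ j ∈ g.A G β, β ∈ fst (app g.t j) → fib G' j = fib G j) →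
  g.A G' β = g.A G β ∧ ((∀ j ∈ g.A G β, fib G' j = fib G j) → g.a G' β = g.a G β)

/-- CE: computations -/
def T_CE : Prop := ∀ g : CD, g.Ok → ∀ G, g.Gn G →
  (∀ β, Ext g.M G β → Ext g.M G (g.A G β) ∧ Ext g.M G (g.a G β)) ∧
  (∀ β, dm (g.a G β) = g.A G β) ∧
  (∀ β ∈ g.kp, HG g.P g.kp G =
    g.P.sep fun p => ∃ i ∈ g.A G β, snd (app g.t i) = ZFSet.pair (nS 2) p) ∧
  (∀ α β, α ⊆ β → g.a G β = (g.a G α).sep fun z => β ⊆ fst (app g.t (fst z))) ∧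
  (∀ β ∈ g.kp, g.a G (insert β β) = (ZFSet.prod g.kp g.K).sep fun z =>
    fst z ∈ g.A G β ∧ β ∈ fst (app g.t (fst z)) ∧
      ∃ i ∈ g.A G β, app g.t i = ZFSet.pair β (ZFSet.pair (nS 1) z)) ∧
  (∀ β ∈ g.kp, g.A G β = g.kp.sep fun i => (β ∈ fst (app g.t i) ∧ i ∈ g.A G (insert β β)) ∨
    (fst (app g.t i) = β ∧ (snd (app g.t i) = ∅ ∨
      (∃ j ∈ i, ∃ q, snd (app g.t i) = ZFSet.pair (nS 1) (ZFSet.pair j q) ∧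
        β ∈ fst (app g.t j) ∧ ZFSet.pair j q ∈ g.a G (insert β β)) ∨
      ∃ p ∈ HG g.P g.kp G, snd (app g.t i) = ZFSet.pair (nS 2) p)))

/-- CF: the models `B_β` -/
def T_CF : Prop := ∀ g : CD, g.Ok → ∀ G, g.Gn G →
  (∀ β, Ext g.M G β → ZFCm (g.B G β) ∧ g.B G β (g.a G β) ∧ {x | g.B G β x}.Countable ∧
    (∀ x, g.M x → g.B G β x) ∧ (∀ x, g.B G β x → Ext g.M G x) ∧
    (∀ α : Ordinal.{0}, g.B G β α.toZFSet ↔ α < g.θ) ∧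
    (∀ W : V → Prop, ZFm W → (∀ x, g.M x → W x) → W (g.a G β) → ∀ x, g.B G β x → W x)) ∧
  (∀ β ∈ g.kp, g.B G β (HG g.P g.kp G) ∧ g.B G β (g.A G β)) ∧
  (∀ α ∈ g.kp, ∀ β ∈ g.kp, α ⊆ β → ∀ x, g.B G β x → g.B G α x) ∧
  ∀ β ∈ g.kp, ∀ κ : Ordinal.{0}, g.kp = κ.toZFSet → Inac (g.B G β) κ

/-- CG: `E_i` is stationary in `B_β` if `i` is not in `A_β`, otherwise nonstationary -/
def T_CG : Prop := ∀ g : CD, g.Ok → ∀ G, g.Gn G → ∀ β ∈ g.kp, ∀ i ∈ g.kp,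
  (i ∉ g.A G β → ∀ D, g.B G β D → Clu (app g.mu i) D → ∃ δ ∈ app g.E i, δ ∈ D) ∧
  (i ∈ g.A G β → ∃ D, g.B G β D ∧ Clu (app g.mu i) D ∧ ∀ δ ∈ D, δ ∉ app g.E i)

/-- CH: the part of the generic filter outside `A_β` is generic over `B_β` -/
def T_CH : Prop := ∀ g : CD, g.Ok → ∀ G, g.Gn G → ∀ β ∈ g.kp, ∀ S, g.B G β S → S ⊆ g.kp →
  (∀ k ∈ S, k ∉ g.A G β) →
  g.B G β (rsI (HG g.P g.kp G) S) ∧ g.B G β (leS g.kp (rsI (HG g.P g.kp G) S)) ∧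
  IsPo (rsI (HG g.P g.kp G) S) (leS g.kp (rsI (HG g.P g.kp G) S)) ∧
  Gen (g.B G β) (rsI (HG g.P g.kp G) S) (leS g.kp (rsI (HG g.P g.kp G) S)) (rsI G S) ∧
  rsI G S = (rsI (HG g.P g.kp G) S).sep fun q => ∀ k ∈ S, app q k ∈ fib G k

/-- the set of the active places of level exactly `β` -/
noncomputable def CD.S (g : CD) (G β : V) : V := (g.A G β).sep fun i => fst (app g.t i) = β

/-- CI: `B_β` is a generic extension of `B_(β+1)` -/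
def T_CI : Prop := ∀ g : CD, g.Ok → ∀ G, g.Gn G → ∀ β ∈ g.kp,
  g.B G (insert β β) (g.S G β) ∧ g.S G β ⊆ g.kp ∧ (∀ k ∈ g.S G β, k ∉ g.A G (insert β β)) ∧
  ∀ x, g.B G β x ↔ Ext (g.B G (insert β β)) (rsI G (g.S G β)) x

/-- CJ: the sets which are definable over `B_β` with parameters in `B_(β+1)` -/
def T_CJ : Prop := ∀ g : CD, g.Ok → ∀ G, g.Gn G → ∀ β ∈ g.kp,
  ∀ R : (V → Prop) → (ℕ → V) → Prop, Dfb ZFm R → ∀ (u : V) (v : ℕ → V),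
    g.B G (insert β β) u → In (g.B G (insert β β)) v →
    g.B G (insert β β) (u.sep fun x => R (g.B G β) (cons x v))

/-- CK: the limit step for sets of ordinals -/
def T_CK : Prop := ∀ g : CD, g.Ok → ∀ G, g.Gn G → ∀ β ∈ g.kp, β ≠ ∅ →
  (∀ x ∈ β, insert x x ∈ β) → ∀ η ∈ g.kp, ∀ x, x ⊆ η → (∀ α ∈ β, g.B G α x) → g.B G β x

/-- CL: the limit step -/
def T_CL : Prop := ∀ g : CD, g.Ok → ∀ G, g.Gn G → ∀ β ∈ g.kp, β ≠ ∅ →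
  (∀ x ∈ β, insert x x ∈ β) → ∀ κ : Ordinal.{0}, g.kp = κ.toZFSet →
  ∀ x : V, x.rank < κ → (∀ α ∈ β, g.B G α x) → g.B G β x

end CAA
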