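import Pool.Agent.H37.CA.Targets

/-!
# (GRF) the Galois groups
-/

set_option autoImplicit false

open NumberField

namespace Pool.Agent.H1.CA

open Pool.Agent.H37.CA Pool.Agent.H37.CV Pool.Agent.H28.RC Pool.Agent.H25 Pool.Agent.H25.HK

theorem ker_HF (F L : Type) [Field F] [NumberField F] [Field L] [NumberField L] [Algebra F L]
    [IsGalois ℚ F] [IsGalois ℚ L] :
    (AlgEquiv.restrictNormalHom F : (L ≃ₐ[ℚ] L) →* (F ≃ₐ[ℚ] F)).ker = HF F L := by
  ext g
  rw [MonoidHom.mem_ker]
  constructor
  · intro h x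
    have h1 := AlgEquiv.restrictNormal_commutes g F x
    have h2 : g.restrictNormal F = 1 := h
    rw [h2] at h1
    exact h1.symm
  · intro h
    show g.restrictNormal F = 1
    ext x
    apply (algebraMap F L).injective
    rw [AlgEquiv.restrictNormal_commutes g F x, AlgEquiv.one_apply]
    exact h x

theorem pf_GRF : T_GRF := by
  intro F L _ _ _ _ _ _ _
  refine ⟨?_, ?_, ?_, ?_, ?_⟩
  · rw [← ker_HF]
    infer_instance
  · rw [← ker_HF, Subgroup.index_ker, MonoidHom.range_eq_top.2
      (AlgEquiv.restrictNormalHom_surjective L), Subgroup.card_top]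
    exact IsGalois.card_aut_eq_finrank ℚ F
  · intro h hh
    refine ⟨AlgEquiv.ofRingEquiv (f := h.toRingEquiv) hh, ?_⟩
    ext x
    rfl
  · intro g x
    exact g.commutes x
  · intro g hg
    refine ⟨g.restrictNormal F, ?_, fun x => (AlgEquiv.restrictNormal_commutes g F x).symm⟩
    intro h
    apply hg
    rw [← ker_HF]
    exact h

end Pool.Agent.H1.CA
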