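import Pool.Agent.H1.CA.TarP

/-!
# MP_ceca85_lc: strategic closure, the recursion
-/

set_option linter.unusedVariables false

open Ordinal Order Set
open scoped ZFSet

namespace CAA

open SF

/-- supremum of the values at `k` and of the elements of `w k` -/
noncomputable def psU (mu h w k : V) : V :=
  (⋃₀ ((imS h fun f => app f k).sep fun y => y ∈ app mu k) : ZFSet) ∪ (⋃₀ app w k : ZFSet)

/-- the new point -/
noncomputable def psT (mu h w k : V) : V := insert (psU mu h w k) (psU mu h w k)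

/-- the successor step -/
noncomputable def psN (κ i mu h w : V) : V :=
  (w.sep fun z => fst z ∈ i) ∪ imS (κ.sep fun k => k ∉ i ∧ (app w k).Nonempty) fun k =>
    ZFSet.pair k (insert (psT mu h w k) (app w k))

/-- the union of the values at `k` -/
noncomputable def psV (S k : V) : V := ⋃₀ (imS S fun v => app v k)

/-- the limit step -/
noncomputable def psL (κ i p S : V) : V :=
  (p.sep fun z => fst z ∈ i) ∪ imS (κ.sep fun k => k ∉ i ∧ (psV S k).Nonempty) fun k =>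
    ZFSet.pair k (insert (⋃₀ psV S k : ZFSet) (psV S k))

/-- one step of the recursion, `a = (κ, (i, (mu, (Ψ, p))))`; `h` is the sequence of the hulls,
`u` is the restriction of the function to `x` -/
noncomputable def psS (a h x u : V) : V :=
  ((snd (snd (snd (snd a)))).sep fun _ => x = ∅) ∪
  ((psN (fst a) (fst (snd a)) (fst (snd (snd a))) (app h (⋃₀ x : ZFSet))
    (app (fst (snd (snd (snd a)))) (ZFSet.pair (app u (⋃₀ x : ZFSet)) (⋃₀ x : ZFSet)))).sep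
      fun _ => (⋃₀ x : ZFSet) ∈ x) ∪
  ((psL (fst a) (fst (snd a)) (snd (snd (snd (snd a)))) (rg u)).sep
    fun _ => x ≠ ∅ ∧ (⋃₀ x : ZFSet) ∉ x)

/-- the sequence of conditions -/
noncomputable def psF (a h x : V) : V :=
  psS a h x (ZFSet.range fun y : {y // y ∈ x} => ZFSet.pair y.1 (psF a h y.1))
termination_by x.rank
decreasing_by exact ZFSet.rank_lt_of_mem y.2

theorem psF_eq (a h x : V) : psF a h x = psS a h x (resS x fun y => psF a h y) := by
  rw [psF]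
  rfl

section tm

variable {f1 f2 f3 f4 f5 : (V → Prop) → (ℕ → V) → V}

theorem tm_psU : Tm ZFm (fun _ v => psU (v 0) (v 1) (v 2) (v 3)) := by
  refine Tm.union (Tm.sUnion ?_) (Tm.sUnion (Tm.app (Tm.var 2) (Tm.var 3)))
  refine Tm.sep (R := fun _ u => u 0 ∈ app (u 1) (u 4)) (f := fun _ v => imS (v 1) fun f => app f (v 3))
    (Dfb.mem (Tm.var 0) (Tm.app (Tm.var 1) (Tm.var 4))) ?_
  exact Tm.image (g := fun _ u => app (u 0) (u 4)) (Tm.var 1) (Tm.app (Tm.var 0) (Tm.var 4))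

theorem tm_psT : Tm ZFm (fun _ v => psT (v 0) (v 1) (v 2) (v 3)) := Tm.ins tm_psU tm_psU

theorem tm_psN : Tm ZFm (fun _ v => psN (v 0) (v 1) (v 2) (v 3) (v 4)) := by
  refine Tm.union ?_ ?_
  · exact Tm.sep (R := fun _ u => fst (u 0) ∈ u 2) (Dfb.mem (Tm.fst (Tm.var 0)) (Tm.var 2))
      (Tm.var 4)
  · refine Tm.image (g := fun _ u => ZFSet.pair (u 0) (insert (psT (u 3) (u 4) (u 5) (u 0))
      (app (u 5) (u 0)))) (f := fun _ v => (v 0).sep fun k => k ∉ v 1 ∧ (app (v 4) k).Nonempty)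
      ?_ ?_
    · exact Tm.sep (R := fun _ u => u 0 ∉ u 2 ∧ (app (u 5) (u 0)).Nonempty)
        ((Dfb.mem (Tm.var 0) (Tm.var 2)).not.and (Dfb.ne (Tm.app (Tm.var 5) (Tm.var 0))))
        (Tm.var 0)
    · refine Tm.pair (Tm.var 0) (Tm.ins ?_ (Tm.app (Tm.var 5) (Tm.var 0)))
      exact tm_psT.rn fun i => match i with
        | 0 => 3
        | 1 => 4
        | 2 => 5
        | _ => 0

theorem tm_psV : Tm ZFm (fun _ v => psV (v 0) (v 1)) :=
  Tm.sUnion (Tm.image (g := fun _ u => app (u 0) (u 2)) (Tm.var 0) (Tm.app (Tm.var 0) (Tm.var 2)))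

theorem tm_psL : Tm ZFm (fun _ v => psL (v 0) (v 1) (v 2) (v 3)) := by
  have h1 : Tm ZFm (fun _ u => psV (u 4) (u 0)) := tm_psV.rn fun i => match i with
    | 0 => 4
    | _ => 0
  refine Tm.union ?_ ?_
  · exact Tm.sep (R := fun _ u => fst (u 0) ∈ u 2) (Dfb.mem (Tm.fst (Tm.var 0)) (Tm.var 2))
      (Tm.var 2)
  · refine Tm.image (g := fun _ u => ZFSet.pair (u 0) (insert (⋃₀ psV (u 4) (u 0) : ZFSet)
      (psV (u 4) (u 0)))) (f := fun _ v => (v 0).sep fun k => k ∉ v 1 ∧ (psV (v 3) k).Nonempty)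
      ?_ ?_
    · exact Tm.sep (R := fun _ u => u 0 ∉ u 2 ∧ (psV (u 4) (u 0)).Nonempty)
        ((Dfb.mem (Tm.var 0) (Tm.var 2)).not.and (Dfb.ne h1)) (Tm.var 0)
    · exact Tm.pair (Tm.var 0) (Tm.ins (Tm.sUnion h1) h1)

/-- composition with five arguments -/
theorem tm_at5 {F : V → V → V → V → V → V}
    (hF : Tm ZFm (fun _ v => F (v 0) (v 1) (v 2) (v 3) (v 4))) (h1 : Tm ZFm f1) (h2 : Tm ZFm f2)
    (h3 : Tm ZFm f3) (h4 : Tm ZFm f4) (h5 : Tm ZFm f5) :
    Tm ZFm (fun M v => F (f1 M v) (f2 M v) (f3 M v) (f4 M v) (f5 M v)) := by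
  have := hF.comp (fun i => match i with
    | 0 => f1
    | 1 => f2
    | 2 => f3
    | 3 => f4
    | 4 => f5
    | _ => fun _ v => v 0) (fun i => by
      match i with
      | 0 => exact h1
      | 1 => exact h2
      | 2 => exact h3
      | 3 => exact h4
      | 4 => exact h5
      | n + 5 => exact Tm.var 0)
  exact this

theorem tm_psS : Tm ZFm (fun _ v => psS (v 0) (v 1) (v 2) (v 3)) := by
  have ha1 : Tm ZFm (fun _ v => fst (v 0)) := Tm.fst (Tm.var 0)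
  have ha2 : Tm ZFm (fun _ v => fst (snd (v 0))) := Tm.fst (Tm.snd (Tm.var 0))
  have ha3 : Tm ZFm (fun _ v => fst (snd (snd (v 0)))) := Tm.fst (Tm.snd (Tm.snd (Tm.var 0)))
  have ha4 : Tm ZFm (fun _ v => fst (snd (snd (snd (v 0))))) :=
    Tm.fst (Tm.snd (Tm.snd (Tm.snd (Tm.var 0))))
  have ha5 : Tm ZFm (fun _ v => snd (snd (snd (snd (v 0))))) :=
    Tm.snd (Tm.snd (Tm.snd (Tm.snd (Tm.var 0))))
  have hx : Tm ZFm (fun _ v => (⋃₀ (v 2) : ZFSet)) := Tm.sUnion (Tm.var 2)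
  refine Tm.union (Tm.union ?_ ?_) ?_
  · exact Tm.sep (R := fun _ u => u 3 = ∅) (Dfb.eq (Tm.var 3) Tm.empty) ha5
  · refine Tm.sep (R := fun _ u => (⋃₀ (u 3) : ZFSet) ∈ u 3)
      (Dfb.mem (Tm.sUnion (Tm.var 3)) (Tm.var 3)) ?_
    exact tm_at5 tm_psN ha1 ha2 ha3 (Tm.app (Tm.var 1) hx)
      (Tm.app ha4 (Tm.pair (Tm.app (Tm.var 3) hx) hx))
  · refine Tm.sep (R := fun _ u => u 3 ≠ ∅ ∧ (⋃₀ (u 3) : ZFSet) ∉ u 3)
      ((Dfb.eq (Tm.var 3) Tm.empty).not.and (Dfb.mem (Tm.sUnion (Tm.var 3)) (Tm.var 3)).not) ?_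
    exact tm_at5 (F := fun x y z w _ => psL x y z w) tm_psL ha1 ha2 ha5 (Tm.rg (Tm.var 3))
      (Tm.var 0)

theorem tm_psF : Tm ZFm (fun _ v => psF (v 0) (v 1) (v 2)) := by
  have h : Tm ZFm (fun _ v => psF (v 1) (v 2) (v 0)) := by
    refine tm_recu (ext := fun _ v => v 0) (Φ := fun _ u => psS (u 2) (u 3) (u 1) (u 0))
      ZFSet.rank (Tm.var 0) ?_ ?_ ?_
    · exact tm_at5 (F := fun x y z w _ => psS x y z w) tm_psS (Tm.var 2) (Tm.var 3) (Tm.var 1)
        (Tm.var 0) (Tm.var 0)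
    · intro M k v hv y hy
      exact ZFSet.rank_lt_of_mem hy
    · intro M k v hv
      exact psF_eq _ _ _
  exact h.rn fun i => match i with
    | 0 => 2
    | 1 => 0
    | _ => 1

end tm

/-! ### equations -/

theorem sUn_succ (l : Ordinal.{0}) : (⋃₀ (succ l).toZFSet : ZFSet) = l.toZFSet := by
  ext x
  rw [ZFSet.mem_sUnion]
  constructor
  · rintro ⟨z, hz, hx⟩
    obtain ⟨a, ha, rfl⟩ := Ordinal.mem_toZFSet_iff.1 hz
    obtain ⟨b, hb, rfl⟩ := Ordinal.mem_toZFSet_iff.1 hx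
    exact Ordinal.toZFSet_mem_toZFSet_iff.2 (lt_of_lt_of_le hb (Order.lt_succ_iff.1 ha))
  · intro hx
    exact ⟨_, Ordinal.toZFSet_mem_toZFSet_iff.2 (Order.lt_succ l), hx⟩

theorem sUn_lim {m : Ordinal.{0}} (h : IsSuccLimit m) : (⋃₀ m.toZFSet : ZFSet) = m.toZFSet := by
  ext x
  rw [ZFSet.mem_sUnion]
  constructor
  · rintro ⟨z, hz, hx⟩
    obtain ⟨a, ha, rfl⟩ := Ordinal.mem_toZFSet_iff.1 hz
    obtain ⟨b, hb, rfl⟩ := Ordinal.mem_toZFSet_iff.1 hx
    exact Ordinal.toZFSet_mem_toZFSet_iff.2 (hb.trans ha)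
  · intro hx
    obtain ⟨b, hb, rfl⟩ := Ordinal.mem_toZFSet_iff.1 hx
    exact ⟨_, Ordinal.toZFSet_mem_toZFSet_iff.2 (h.succ_lt hb),
      Ordinal.toZFSet_mem_toZFSet_iff.2 (Order.lt_succ b)⟩

theorem sep_tru {a : V} {p : V → Prop} (h : ∀ x ∈ a, p x) : a.sep p = a := by
  ext x
  rw [ZFSet.mem_sep]
  exact ⟨fun h => h.1, fun hx => ⟨hx, h x hx⟩⟩

theorem sep_fls {a : V} {p : V → Prop} (h : ∀ x, ¬ p x) : a.sep p = ∅ := by
  refine (ZFSet.eq_empty _).2 fun x hx => h x (ZFSet.mem_sep.1 hx).2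

theorem psF_zero (a h : V) : psF a h ∅ = snd (snd (snd (snd a))) := by
  rw [psF_eq]
  unfold psS
  rw [sep_tru (fun _ _ => rfl), sep_fls (fun _ hx => ZFSet.notMem_empty _ hx),
    sep_fls (fun _ hx => hx.1 rfl)]
  ext x
  simp

theorem psF_succ (a h : V) (l : Ordinal.{0}) : psF a h (succ l).toZFSet =
    psN (fst a) (fst (snd a)) (fst (snd (snd a))) (app h l.toZFSet)
      (app (fst (snd (snd (snd a)))) (ZFSet.pair (psF a h l.toZFSet) l.toZFSet)) := by
  have hl : l.toZFSet ∈ (succ l).toZFSet := Ordinal.toZFSet_mem_toZFSet_iff.2 (Order.lt_succ l)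
  have h0 : (succ l).toZFSet ≠ ∅ := by
    intro h1
    rw [h1] at hl
    exact ZFSet.notMem_empty _ hl
  rw [psF_eq]
  unfold psS
  rw [sUn_succ, app_resS hl, sep_fls (fun _ hx => h0 hx), sep_tru (fun _ _ => hl),
    sep_fls (fun _ hx => hx.2 hl)]
  ext x
  simp

theorem rg_resS (a : V) (F : V → V) : rg (resS a F) = imS a F := by
  ext y
  rw [mem_rg, mem_imS]
  constructor
  · rintro ⟨x, hx⟩
    rw [pair_mem_resS] at hx
    exact ⟨x, hx.1, hx.2.symm⟩
  · rintro ⟨x, hx, rfl⟩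
    exact ⟨x, pair_mem_resS.2 ⟨hx, rfl⟩⟩

theorem psF_lim (a h : V) {m : Ordinal.{0}} (hm : IsSuccLimit m) : psF a h m.toZFSet =
    psL (fst a) (fst (snd a)) (snd (snd (snd (snd a)))) (imS m.toZFSet fun l => psF a h l) := by
  have h0 : m.toZFSet ≠ ∅ := by
    intro h1
    have h2 : (0 : Ordinal.{0}).toZFSet ∈ m.toZFSet :=
      Ordinal.toZFSet_mem_toZFSet_iff.2 hm.bot_lt
    rw [h1] at h2
    exact ZFSet.notMem_empty _ h2
  have h3 : (⋃₀ m.toZFSet : ZFSet) ∉ m.toZFSet := by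
    rw [sUn_lim hm]
    exact ZFSet.mem_irrefl _
  rw [psF_eq]
  unfold psS
  rw [sep_fls (fun _ hx => h0 hx), sep_fls (fun _ hx => h3 hx), sep_tru (fun _ _ => ⟨h0, h3⟩),
    rg_resS]
  ext x
  simp

/-- the values depend only on the hulls with smaller index -/
theorem psF_congr (a h h' : V) (m : Ordinal.{0})
    (e : ∀ l < m, app h l.toZFSet = app h' l.toZFSet) :
    psF a h m.toZFSet = psF a h' m.toZFSet := by
  induction m using WellFoundedLT.induction with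
  | ind m ih =>
    rcases zero_or_succ_or_isSuccLimit m with rfl | ⟨l, rfl⟩ | hm
    · rw [Ordinal.toZFSet_zero, psF_zero, psF_zero]
    · rw [psF_succ, psF_succ, e l (Order.lt_succ l),
        ih l (Order.lt_succ l) fun l' hl' => e l' (hl'.trans (Order.lt_succ l))]
    · rw [psF_lim a h hm, psF_lim a h' hm]
      congr 1
      ext x
      simp only [mem_imS]
      refine exists_congr fun y => and_congr_right fun hy => ?_
      obtain ⟨l, hl, rfl⟩ := Ordinal.mem_toZFSet_iff.1 hy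
      rw [ih l hl fun l' hl' => e l' (hl'.trans hl)]

end CAA
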