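import Pool.Agent.H1.CA.PS1

/-!
# MP_ceca85_lc: strategic closure, lemmas
-/

set_option linter.unusedVariables false

open Ordinal Order Set
open scoped ZFSet

namespace CAA

open SF

/-- a set given by a restriction of `w` and by values on a disjoint set -/
theorem app_form (hPB : T_PB) {w i dom : V} {F : V → V} (hw : Svl w) (hd : ∀ k ∈ dom, k ∉ i) :
    Svl ((w.sep fun z => fst z ∈ i) ∪ imS dom fun k => ZFSet.pair k (F k)) ∧
    (∀ k ∈ i, app ((w.sep fun z => fst z ∈ i) ∪ imS dom fun k => ZFSet.pair k (F k)) k =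
      app w k) ∧
    (∀ k ∈ dom, app ((w.sep fun z => fst z ∈ i) ∪ imS dom fun k => ZFSet.pair k (F k)) k =
      F k) ∧
    ∀ k, k ∉ i → k ∉ dom →
      app ((w.sep fun z => fst z ∈ i) ∪ imS dom fun k => ZFSet.pair k (F k)) k = ∅ := by
  have key : ∀ k q, ZFSet.pair k q ∈ ((w.sep fun z => fst z ∈ i) ∪
      imS dom fun k => ZFSet.pair k (F k) : V) ↔
      (k ∈ i ∧ ZFSet.pair k q ∈ w) ∨ (k ∈ dom ∧ q = F k) := by
    intro k q
    rw [ZFSet.mem_union, ZFSet.mem_sep, mem_imS, fst_pair]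
    constructor
    · rintro (h | ⟨k', hk', h⟩)
      · exact Or.inl ⟨h.2, h.1⟩
      · obtain ⟨rfl, rfl⟩ := ZFSet.pair_injective h
        exact Or.inr ⟨hk', rfl⟩
    · rintro (h | ⟨h1, rfl⟩)
      · exact Or.inl ⟨h.2, h.1⟩
      · exact Or.inr ⟨k, h1, rfl⟩
  have hs : Svl ((w.sep fun z => fst z ∈ i) ∪ imS dom fun k => ZFSet.pair k (F k)) := by
    intro x y z hy hz
    rw [key] at hy hz
    rcases hy with hy | hy <;> rcases hz with hz | hz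
    · exact hw x y z hy.2 hz.2
    · exact absurd hy.1 (hd x hz.1)
    · exact absurd hz.1 (hd x hy.1)
    · rw [hy.2, hz.2]
  refine ⟨hs, fun k hk => ?_, fun k hk => ?_, fun k h1 h2 => ?_⟩
  · by_cases h : k ∈ dm w
    · obtain ⟨y, hy⟩ := mem_dm.1 h
      rw [app_eq hw hy]
      exact app_eq hs ((key k y).2 (Or.inl ⟨hk, hy⟩))
    · rw [hPB.2.2.2 w k h]
      refine hPB.2.2.2 _ k fun h' => ?_
      obtain ⟨y, hy⟩ := mem_dm.1 h'
      rcases (key k y).1 hy with h3 | h3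
      · exact h (mem_dm.2 ⟨y, h3.2⟩)
      · exact hd k h3.1 hk
  · exact app_eq hs ((key k _).2 (Or.inr ⟨hk, rfl⟩))
  · refine hPB.2.2.2 _ k fun h' => ?_
    obtain ⟨y, hy⟩ := mem_dm.1 h'
    rcases (key k y).1 hy with h3 | h3
    · exact h1 h3.1
    · exact h2 h3.1

/-- the union of a set of ordinals -/
theorem sUn_ord {A : V} {η : Ordinal.{0}} (h : A ⊆ η.toZFSet) :
    ∃ ξ ≤ η, (⋃₀ A : ZFSet) = ξ.toZFSet := by
  have h1 : IsOrd (⋃₀ A : ZFSet) := by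
    rw [isOrd_iff]
    constructor
    · intro x hx y hy
      obtain ⟨z, hz, hx⟩ := ZFSet.mem_sUnion.1 hx
      obtain ⟨a, ha, rfl⟩ := Ordinal.mem_toZFSet_iff.1 (h hz)
      obtain ⟨b, hb, rfl⟩ := Ordinal.mem_toZFSet_iff.1 hx
      obtain ⟨c, hc, rfl⟩ := Ordinal.mem_toZFSet_iff.1 hy
      exact ZFSet.mem_sUnion.2 ⟨_, hz, Ordinal.toZFSet_mem_toZFSet_iff.2 (hc.trans hb)⟩
    · intro x hx
      obtain ⟨z, hz, hx⟩ := ZFSet.mem_sUnion.1 hx
      obtain ⟨a, ha, rfl⟩ := Ordinal.mem_toZFSet_iff.1 (h hz)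
      obtain ⟨b, hb, rfl⟩ := Ordinal.mem_toZFSet_iff.1 hx
      exact (ZFSet.isOrdinal_toZFSet b).isTransitive
  obtain ⟨ξ, hξ⟩ := h1
  refine ⟨ξ, ?_, hξ⟩
  rw [← Ordinal.toZFSet_subset_toZFSet_iff, ← hξ]
  intro x hx
  obtain ⟨z, hz, hx⟩ := ZFSet.mem_sUnion.1 hx
  obtain ⟨a, ha, rfl⟩ := Ordinal.mem_toZFSet_iff.1 (h hz)
  obtain ⟨b, hb, rfl⟩ := Ordinal.mem_toZFSet_iff.1 hx
  exact Ordinal.toZFSet_mem_toZFSet_iff.2 (hb.trans ha)

theorem toZFSet_union (a b : Ordinal.{0}) : (a.toZFSet ∪ b.toZFSet : V) = (max a b).toZFSet := by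
  ext x
  rw [ZFSet.mem_union]
  constructor
  · rintro (h | h)
    · exact Ordinal.toZFSet_subset_toZFSet_iff.2 (le_max_left a b) h
    · exact Ordinal.toZFSet_subset_toZFSet_iff.2 (le_max_right a b) h
  · intro h
    rcases le_total a b with h1 | h1
    · rw [max_eq_right h1] at h
      exact Or.inr h
    · rw [max_eq_left h1] at h
      exact Or.inl h

/-- a set with a maximum -/
theorem sUn_max {q : V} {τ m : Ordinal.{0}} (hq : q ⊆ m.toZFSet) (h1 : τ.toZFSet ∈ q)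
    (h2 : ∀ y ∈ q, y ∈ τ.toZFSet ∨ y = τ.toZFSet) : (⋃₀ q : ZFSet) = τ.toZFSet := by
  ext x
  rw [ZFSet.mem_sUnion]
  constructor
  · rintro ⟨y, hy, hx⟩
    rcases h2 y hy with h3 | rfl
    · exact (ZFSet.isOrdinal_toZFSet τ).isTransitive _ h3 hx
    · exact hx
  · exact fun hx => ⟨_, h1, hx⟩

/-- elements of `Ef k` are limits -/
theorem not_inE_succ {κ γ ν : Ordinal.{0}} : ¬ InE κ γ (succ ν) := by
  intro h
  obtain ⟨f, -, hf, h1⟩ := h.cof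
  obtain ⟨n, hn⟩ := h1 ν (Order.lt_succ ν)
  have h2 : nS n ∈ om := mem_om.2 ⟨n, rfl⟩
  have h3 := app_mem hf h2
  obtain ⟨b, hb, hb2⟩ := Ordinal.mem_toZFSet_iff.1 h3
  rw [← hb2, Ordinal.toZFSet_mem_toZFSet_iff] at hn
  exact absurd (Order.lt_succ_iff.1 hb) (not_le.2 hn)

/-- union of a chain of closed bounded sets -/
theorem isQ_union {m : Ordinal.{0}} {e : V} (q : Ordinal.{0} → V) (n : Ordinal.{0})
    (hq : ∀ l < n, IsQ m.toZFSet e (q l)) (hE : ∀ l l', l ≤ l' → l' < n → Ee (q l') (q l))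
    {U : V} (hU : ∀ x, x ∈ U ↔ ∃ l < n, x ∈ q l) {δ : Ordinal.{0}} (hδm : δ < m)
    (hδe : δ.toZFSet ∉ e) (hδ : (⋃₀ U : ZFSet) = δ.toZFSet) (hun : ∀ x ∈ U, ∃ y ∈ U, x ∈ y) :
    IsQ m.toZFSet e (insert δ.toZFSet U) ∧ ∀ l < n, Ee (insert δ.toZFSet U) (q l) := by
  have hin : ∀ x ∈ U, x ∈ δ.toZFSet := by
    intro x hx
    obtain ⟨y, hy, hxy⟩ := hun x hx
    rw [← hδ]
    exact ZFSet.mem_sUnion.2 ⟨y, hy, hxy⟩
  have hend : ∀ l < n, ∀ x ∈ U, ∀ y ∈ q l, x ∈ y → x ∈ q l := by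
    intro l hl x hx y hy hxy
    obtain ⟨l', hl', hx⟩ := (hU x).1 hx
    rcases le_total l' l with h | h
    · exact (hE l' l h hl).1 hx
    · exact (hE l l' h hl').2 x hx y hy hxy
  refine ⟨⟨?_, Or.inr ⟨δ.toZFSet, ?_, ?_⟩, ?_, ?_⟩, fun l hl => ⟨?_, ?_⟩⟩
  · intro x hx
    rcases ZFSet.mem_insert_iff.1 hx with rfl | hx
    · exact Ordinal.toZFSet_mem_toZFSet_iff.2 hδm
    · obtain ⟨l, hl, hx⟩ := (hU x).1 hx
      exact (hq l hl).sub hx
  · exact ZFSet.mem_insert_iff.2 (Or.inl rfl)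
  · intro x hx
    rcases ZFSet.mem_insert_iff.1 hx with rfl | hx
    · exact Or.inr rfl
    · exact Or.inl (hin x hx)
  · intro d hd hd0 hcof
    obtain ⟨d, hdm, rfl⟩ := Ordinal.mem_toZFSet_iff.1 hd
    rcases lt_trichotomy d δ with h | rfl | h
    · refine ZFSet.mem_insert_iff.2 (Or.inr ?_)
      have h1 : d.toZFSet ∈ δ.toZFSet := Ordinal.toZFSet_mem_toZFSet_iff.2 h
      rw [← hδ] at h1
      obtain ⟨y, hy, hdy⟩ := ZFSet.mem_sUnion.1 h1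
      obtain ⟨l, hl, hyl⟩ := (hU y).1 hy
      refine (hU _).2 ⟨l, hl, (hq l hl).cl _ hd hd0 fun x hx => ?_⟩
      obtain ⟨z, hz, hxz, hzd⟩ := hcof x hx
      refine ⟨z, ?_, hxz, hzd⟩
      rcases ZFSet.mem_insert_iff.1 hz with rfl | hz
      · exact absurd (Ordinal.toZFSet_mem_toZFSet_iff.1 hzd) (not_lt.2 h.le)
      · have hym : y ∈ m.toZFSet := (hq l hl).sub hyl
        obtain ⟨y', -, rfl⟩ := Ordinal.mem_toZFSet_iff.1 hym
        exact hend l hl z hz _ hyl ((ZFSet.isOrdinal_toZFSet y').isTransitive _ hdy hzd)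
    · exact ZFSet.mem_insert_iff.2 (Or.inl rfl)
    · obtain ⟨z, hz, h1, h2⟩ := hcof δ.toZFSet (Ordinal.toZFSet_mem_toZFSet_iff.2 h)
      rcases ZFSet.mem_insert_iff.1 hz with rfl | hz
      · exact absurd h1 (ZFSet.mem_irrefl _)
      · exact absurd (hin z hz) (ZFSet.mem_asymm h1)
  · intro x hx
    rcases ZFSet.mem_insert_iff.1 hx with rfl | hx
    · exact hδe
    · obtain ⟨l, hl, hx⟩ := (hU x).1 hx
      exact (hq l hl).dj x hx
  · intro x hx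
    exact ZFSet.mem_insert_iff.2 (Or.inr ((hU x).2 ⟨l, hl, hx⟩))
  · intro x hx y hy hxy
    rcases ZFSet.mem_insert_iff.1 hx with rfl | hx
    · exact absurd (hin y ((hU y).2 ⟨l, hl, hy⟩)) (ZFSet.mem_asymm hxy)
    · exact hend l hl x hx y hy hxy

/-- the domain of a condition is bounded -/
theorem cd_bdd {D : Dat} (hD : D.Ok) {p : V} (hp : p ∈ D.c) :
    ∃ j < D.κ, ∀ k ∈ dm p, k ∈ j.toZFSet := by
  have h1 := (hD.cA p).1 hp
  have hz := hD.grd.zκ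
  have hMz := hD.grd.zfc.toZFm
  have hdm : dm p ∈ LA ∅ D.κ := (Tm.dm (Tm.var 0)).1 _ hz (fun _ => p) (fun _ => h1.lk)
  have hpM : p ∈ LA ∅ D.θ := Lh_mono (hD.grd.κχ.le.trans hD.grd.χθ.le) h1.lk
  have hfM : (resS (dm p) fun x => x) ∈ LA ∅ D.θ :=
    (Tm.resS (g := fun _ u => u 0) (Tm.dm (Tm.var 0)) (Tm.var 0)).1 _ hMz (fun _ => p)
      (fun _ => hpM)
  have hf : ZFSet.IsFunc (dm p) D.κ.toZFSet (resS (dm p) fun x => x) := by
    refine isFunc_resS _ _ _ fun x hx => ?_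
    obtain ⟨y, hy⟩ := mem_dm.1 hx
    obtain ⟨k, hk, q, e⟩ := h1.pr _ hy
    obtain ⟨rfl, -⟩ := ZFSet.pair_injective e
    exact Ordinal.toZFSet_mem_toZFSet_iff.2 hk
  obtain ⟨j, hj, h2⟩ := hD.grd.regκ _ hdm _ hfM hf
  exact ⟨j, hj, fun k hk => by
    have := h2 k hk
    rwa [app_resS hk] at this⟩

/-- sufficient condition for a condition -/
theorem cd_of {D : Dat} (hD : D.Ok) {x : V} (hx : x ∈ LA ∅ D.θ) (hs : Svl x) {j : Ordinal.{0}}
    (hj : j < D.κ) (hpr : ∀ z ∈ x, ∃ k < j, ∃ q, z = ZFSet.pair k.toZFSet q)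
    (hq : ∀ k < D.κ, IsQ (D.μ k).toZFSet (app D.Ef k.toZFSet) (app x k.toZFSet)) : x ∈ D.c := by
  refine (hD.cA x).2 ⟨?_, ?_, hs, ?_⟩
  · refine Lh_mono (hD.sz.γκ j hj).le (hD.sz.pow2 j hj x hx fun z hz => ?_)
    obtain ⟨k, hk, q, rfl⟩ := hpr z hz
    refine ⟨k, hk, q, ?_, ?_, rfl⟩
    · exact (hD.grd.zfc.toZFm.of_pair_mem hx hz).2
    · have h1 := (hq k (hk.trans hj)).sub
      rwa [app_eq hs hz] at h1
  · intro z hz
    obtain ⟨k, hk, q, rfl⟩ := hpr z hz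
    exact ⟨k, hk.trans hj, q, rfl⟩
  · intro k hk
    rw [hD.sz.muA k hk]
    exact hq k hk

end CAA
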