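import Pool.Agent.H1.CA.PS2

/-!
# MP_ceca85_lc: strategic closure
-/

set_option linter.unusedVariables false

open Ordinal Order Set
open scoped ZFSet

namespace CAA

open SF

/-- a chain is below the new point; `w` is a condition -/
theorem psT_spec (hGH : T_GH) (hDF : T_DF) {D : Dat} (hD : D.Ok) {i k : Ordinal.{0}}
    (hi : i < D.κ) (hik : i ≤ k) (hk : k < D.κ) {h w : V} (hh : D.M h)
    (hsm : Sm D.M (LA ∅ (D.γ i)) h)
    (hw : IsQ (D.μ k).toZFSet (app D.Ef k.toZFSet) (app w k.toZFSet)) :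
    ∃ τ < D.μ k, psT D.mu h w k.toZFSet = τ.toZFSet ∧ (∀ y ∈ app w k.toZFSet, y ∈ τ.toZFSet) ∧
      (∀ f ∈ h, ∀ η < D.μ k, app f k.toZFSet = η.toZFSet → η < τ) ∧
      τ.toZFSet ∉ app D.Ef k.toZFSet := by
  have hM : ZFm D.M := hD.grd.zfc.toZFm
  obtain ⟨hC, hCM, hlim, hbd, -⟩ := (hGH D hD).1 k hk
  obtain ⟨hCi, hCiM, -, -, -⟩ := (hGH D hD).1 i hi
  have hkM : D.M k.toZFSet := (hD.grd.ord k).2 (hk.trans (hD.grd.κχ.trans hD.grd.χθ))
  have hmuM : D.M (D.μ k).toZFSet :=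
    (hD.grd.ord _).2 ((hD.sz.μκ k hk).trans (hD.grd.κχ.trans hD.grd.χθ))
  have hsub : LA ∅ (D.γ i) ⊆ LA ∅ (D.γ k) := by
    rcases hik.eq_or_lt with rfl | h1
    · exact fun _ h => h
    · exact Lh_mono ((hD.sz.γμ i hi).le.trans (hD.sz.μγ i k h1 hk).le)
  -- the set of the values
  have hA1M : D.M ((imS h fun f => app f k.toZFSet).sep fun y => y ∈ app D.mu k.toZFSet) := by
    have h1 : Tm ZFm (fun _ v => (imS (v 0) fun f => app f (v 1)).sep fun y => y ∈ v 2) :=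
      Tm.sep (R := fun _ u => u 0 ∈ u 3) (Dfb.mem (Tm.var 0) (Tm.var 3))
        (Tm.image (g := fun _ u => app (u 0) (u 2)) (Tm.var 0) (Tm.app (Tm.var 0) (Tm.var 2)))
    rw [hD.sz.muA k hk]
    exact h1.1 D.M hM (fun n => match n with
      | 0 => h
      | 1 => k.toZFSet
      | _ => (D.μ k).toZFSet) (fun n => by
        match n with
        | 0 => exact hh
        | 1 => exact hkM
        | n + 2 => exact hmuM)
  have hrM : D.M (resS h fun f => app f k.toZFSet) :=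
    (Tm.resS (g := fun _ u => app (u 0) (u 2)) (Tm.var 0) (Tm.app (Tm.var 0) (Tm.var 2))).1 D.M hM
      (fun n => match n with
      | 0 => h
      | _ => k.toZFSet) (fun n => by
        match n with
        | 0 => exact hh
        | n + 1 => exact hkM)
  have hF := hDF D.M hM _ hCiM hCi
  have hs1 : Sm D.M (LA ∅ (D.γ i)) (rg (resS h fun f => app f k.toZFSet)) :=
    hF.2.2.2.2.2.2.1 h _ hsm hrM (svl_resS _ _) (dm_resS _ _)
  rw [rg_resS] at hs1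
  have hs2 : Sm D.M (LA ∅ (D.γ i))
      ((imS h fun f => app f k.toZFSet).sep fun y => y ∈ app D.mu k.toZFSet) :=
    hF.2.2.1 _ _ hA1M hs1 (fun x hx => (ZFSet.mem_sep.1 hx).1)
  have hs3 := hF.2.2.2.2.2.2.2.2.1 _ hCM hsub _ hs2
  obtain ⟨η1, hη1, hsub1⟩ := hbd _ hA1M hs3 (fun x hx => by
    have := (ZFSet.mem_sep.1 hx).2
    rwa [hD.sz.muA k hk] at this)
  obtain ⟨ξ1, hξ1, e1⟩ := sUn_ord hsub1
  have hw2 : ∃ ξ2 < D.μ k, (⋃₀ app w k.toZFSet : ZFSet) = ξ2.toZFSet := by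
    rcases hw.mx with h1 | ⟨d, hd, hmax⟩
    · refine ⟨0, hlim.bot_lt, ?_⟩
      rw [h1, Ordinal.toZFSet_zero]
      exact (ZFSet.eq_empty _).2 fun x hx => by
        obtain ⟨y, hy, -⟩ := ZFSet.mem_sUnion.1 hx
        exact ZFSet.notMem_empty _ hy
    · obtain ⟨δ, hδ, rfl⟩ := Ordinal.mem_toZFSet_iff.1 (hw.sub hd)
      exact ⟨δ, hδ, sUn_max hw.sub hd hmax⟩
  obtain ⟨ξ2, hξ2, e2⟩ := hw2
  refine ⟨succ (max ξ1 ξ2), hlim.succ_lt (max_lt (lt_of_le_of_lt hξ1 hη1) hξ2), ?_, ?_, ?_, ?_⟩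
  · unfold psT psU
    rw [e1, e2, toZFSet_union, ← Ordinal.toZFSet_add_one]; rfl
  · intro y hy
    obtain ⟨b, hb, rfl⟩ := Ordinal.mem_toZFSet_iff.1 (hw.sub hy)
    rw [Ordinal.toZFSet_mem_toZFSet_iff]
    refine Order.lt_succ_iff.2 (le_trans ?_ (le_max_right _ _))
    rw [← Ordinal.toZFSet_subset_toZFSet_iff, ← e2]
    exact fun x hx => ZFSet.mem_sUnion.2 ⟨_, hy, hx⟩
  · intro f hf η hη hfη
    refine Order.lt_succ_iff.2 (le_trans ?_ (le_max_left _ _))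
    rw [← Ordinal.toZFSet_subset_toZFSet_iff, ← e1]
    refine fun x hx => ZFSet.mem_sUnion.2 ⟨η.toZFSet, ZFSet.mem_sep.2 ⟨mem_imS.2 ⟨f, hf, hfη⟩, ?_⟩,
      hx⟩
    rw [hD.sz.muA k hk]
    exact Ordinal.toZFSet_mem_toZFSet_iff.2 hη
  · intro hE
    obtain ⟨δ, hδ, e, hI⟩ := (hD.eA k hk _).1 hE
    rw [← Ordinal.toZFSet_injective e] at hI
    exact not_inE_succ hI

/-- the successor step -/
theorem psN_spec (hPA : T_PA) (hPB : T_PB) (hPF : T_PF) (hGH : T_GH) (hDF : T_DF) {D : Dat}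
    (hD : D.Ok) {i : Ordinal.{0}} (hi : i < D.κ) {h w : V} (hh : D.M h)
    (hsm : Sm D.M (LA ∅ (D.γ i)) h) (hw : w ∈ D.c) :
    psN D.κ.toZFSet i.toZFSet D.mu h w ∈ D.c ∧ D.Le (psN D.κ.toZFSet i.toZFSet D.mu h w) w ∧
    (∀ k < i, app (psN D.κ.toZFSet i.toZFSet D.mu h w) k.toZFSet = app w k.toZFSet) ∧
    ∀ k, i ≤ k → k < D.κ → (app w k.toZFSet).Nonempty → ∃ τ < D.μ k,
      app (psN D.κ.toZFSet i.toZFSet D.mu h w) k.toZFSet = insert τ.toZFSet (app w k.toZFSet) ∧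
      (∀ y ∈ app w k.toZFSet, y ∈ τ.toZFSet) ∧
      (∀ f ∈ h, ∀ η < D.μ k, app f k.toZFSet = η.toZFSet → η < τ) := by
  have hM : ZFm D.M := hD.grd.zfc.toZFm
  obtain ⟨hP1, hP2, hP3, hP4, hP5, hP6, hP7, hP8, hP9, hP10, hP11, hP12⟩ := hPF D hD
  obtain ⟨hwS, hwM, hwQ, hwo⟩ := hP5 w hw
  have hκθ := hD.grd.κχ.trans hD.grd.χθ
  have hmuM : D.M D.mu := Lh_mono hD.grd.χθ.le hD.sz.muM
  have hNM : D.M (psN D.κ.toZFSet i.toZFSet D.mu h w) := by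
    refine tm_psN.1 D.M hM (fun n => match n with
      | 0 => D.κ.toZFSet
      | 1 => i.toZFSet
      | 2 => D.mu
      | 3 => h
      | _ => w) (fun n => ?_)
    match n with
    | 0 => exact (hD.grd.ord _).2 hκθ
    | 1 => exact (hD.grd.ord _).2 (hi.trans hκθ)
    | 2 => exact hmuM
    | 3 => exact hh
    | n + 4 => exact hwM
  obtain ⟨hs, hv1, hv2, hv3⟩ := app_form hPB (i := i.toZFSet)
    (dom := D.κ.toZFSet.sep fun k => k ∉ i.toZFSet ∧ (app w k).Nonempty)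
    (F := fun k => insert (psT D.mu h w k) (app w k)) hwS
    (fun k hk => (ZFSet.mem_sep.1 hk).2.1)
  have hval : ∀ k, i ≤ k → k < D.κ → (app w k.toZFSet).Nonempty →
      app (psN D.κ.toZFSet i.toZFSet D.mu h w) k.toZFSet =
        insert (psT D.mu h w k.toZFSet) (app w k.toZFSet) := fun k hik hk hne =>
    hv2 _ (ZFSet.mem_sep.2 ⟨Ordinal.toZFSet_mem_toZFSet_iff.2 hk,
      fun h => absurd (Ordinal.toZFSet_mem_toZFSet_iff.1 h) (not_lt.2 hik), hne⟩)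
  have hval0 : ∀ k, i ≤ k → k < D.κ → ¬ (app w k.toZFSet).Nonempty →
      app (psN D.κ.toZFSet i.toZFSet D.mu h w) k.toZFSet = ∅ := fun k hik hk hne =>
    hv3 _ (fun h => absurd (Ordinal.toZFSet_mem_toZFSet_iff.1 h) (not_lt.2 hik))
      (fun h => hne (ZFSet.mem_sep.1 h).2.2)
  have hvi : ∀ k < i, app (psN D.κ.toZFSet i.toZFSet D.mu h w) k.toZFSet = app w k.toZFSet :=
    fun k hk => hv1 _ (Ordinal.toZFSet_mem_toZFSet_iff.2 hk)
  have hemp : ∀ k, ¬ (app w k).Nonempty → app w k = ∅ := fun k h =>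
    (ZFSet.eq_empty _).2 fun x hx => h ⟨x, hx⟩
  have hQL : ∀ k < D.κ, IsQ (D.μ k).toZFSet (app D.Ef k.toZFSet)
      (app (psN D.κ.toZFSet i.toZFSet D.mu h w) k.toZFSet) ∧
      Ee (app (psN D.κ.toZFSet i.toZFSet D.mu h w) k.toZFSet) (app w k.toZFSet) := by
    intro k hk
    rcases lt_or_ge k i with hki | hki
    · rw [hvi k hki]
      exact ⟨(hwQ k hk).2, hPA.1 _⟩
    · by_cases hne : (app w k.toZFSet).Nonempty
      · obtain ⟨τ, hτ, e, h1, h2, h3⟩ := psT_spec hGH hDF hD hi hki hk hh hsm (hwQ k hk).2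
        rw [hval k hki hk hne, e]
        exact hPA.2.2.2.2.2.1 _ _ _ _ (hwQ k hk).2 hτ h3 h1
      · rw [hval0 k hki hk hne]
        have h1 := (hwQ k hk).2
        rw [hemp _ hne] at h1 ⊢
        exact ⟨h1, hPA.1 _⟩
  refine ⟨?_, fun k hk => (hQL k hk).2, hvi, ?_⟩
  · obtain ⟨j, hj, hjb⟩ := cd_bdd hD hw
    refine cd_of hD hNM hs hj ?_ fun k hk => (hQL k hk).1
    intro z hz
    rcases ZFSet.mem_union.1 hz with h1 | h1
    · obtain ⟨k, hk, q, rfl⟩ := ((hD.cA w).1 hw).pr z (ZFSet.mem_sep.1 h1).1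
      exact ⟨k, Ordinal.toZFSet_mem_toZFSet_iff.1
        (hjb _ (mem_dm.2 ⟨q, (ZFSet.mem_sep.1 h1).1⟩)), q, rfl⟩
    · obtain ⟨k, hk, rfl⟩ := mem_imS.1 h1
      obtain ⟨hkκ, hki, hne⟩ := ZFSet.mem_sep.1 hk
      obtain ⟨k, hk', rfl⟩ := Ordinal.mem_toZFSet_iff.1 hkκ
      refine ⟨k, ?_, _, rfl⟩
      by_contra hcon
      have h2 : k.toZFSet ∉ dm w := fun h => hcon (Ordinal.toZFSet_mem_toZFSet_iff.1 (hjb _ h))
      rw [hPB.2.2.2 _ _ h2] at hne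
      exact ZFSet.not_nonempty_empty hne
  · intro k hki hk hne
    obtain ⟨τ, hτ, e, h1, h2, h3⟩ := psT_spec hGH hDF hD hi hki hk hh hsm (hwQ k hk).2
    exact ⟨τ, hτ, by rw [hval k hki hk hne, e], h1, h2⟩

end CAA
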