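import Pool.Agent.H9.CA.TarG

/-!
# MP_ceca85_lc: parts P (forcing), C (coding), M (quotients, limits). Targets
-/

set_option linter.unusedVariables false

open Ordinal Order Set
open scoped ZFSet

namespace CAA

open SF

/-- coordinatewise end extension -/
def Dat.Le (D : Dat) (p q : V) : Prop := ∀ k < D.κ, Ee (app p k.toZFSet) (app q k.toZFSet)

/-- `G` is a generic filter -/
def Dat.Gn (D : Dat) (G : V) : Prop := Gen D.M D.c D.r G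

/-- the fiber at `k` -/
noncomputable def Dat.F (D : Dat) (G : V) (k : Ordinal.{0}) : V := fib (D.X G) k.toZFSet

/-- `q` is a condition of the `k`-th coordinate forcing (if `q ∈ M`) -/
def Dat.Q (D : Dat) (k : Ordinal.{0}) (q : V) : Prop :=
  D.M q ∧ IsQ (D.μ k).toZFSet (app D.Ef k.toZFSet) q

/-- `p` with the value at `k` replaced by `q` -/
noncomputable def upd (p k q : V) : V := insert (ZFSet.pair k q) (p.sep fun z => fst z ≠ k)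

/-! ## Part P: the product -/

/-- PA: end extensions and closed bounded sets; `q1 ∪ (q \ q0)` is `q` with the initial segment
`q0` replaced by `q1` -/
def T_PA : Prop :=
  (∀ q, Ee q q) ∧ (∀ a b c, Ee a b → Ee b c → Ee a c) ∧ (∀ q, Ee q ∅) ∧
  (∀ a b, Ee a b → Ee b a → a = b) ∧
  (∀ (m : Ordinal.{0}) (s q q' : V), s ⊆ m.toZFSet → Ee s q → Ee s q' → Ee q q' ∨ Ee q' q) ∧
  (∀ (m x : Ordinal.{0}) (e q : V), IsQ m.toZFSet e q → x < m → x.toZFSet ∉ e →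
    (∀ y ∈ q, y ∈ x.toZFSet) →
    IsQ m.toZFSet e (insert x.toZFSet q) ∧ Ee (insert x.toZFSet q) q) ∧
  ∀ (m x : Ordinal.{0}) (e q0 q1 : V), IsQ m.toZFSet e q0 → IsQ m.toZFSet e q1 →
    x.toZFSet ∈ q0 → x.toZFSet ∈ q1 → (∀ y ∈ q0, y ∈ x.toZFSet ∨ y = x.toZFSet) →
    (∀ y ∈ q1, y ∈ x.toZFSet ∨ y = x.toZFSet) →
    ∀ q, IsQ m.toZFSet e q → Ee q q0 →
      IsQ m.toZFSet e (q1 ∪ (q \ q0)) ∧ Ee (q1 ∪ (q \ q0)) q1 ∧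
      (q1 ∪ (q \ q0)) \ q1 = q \ q0 ∧ q0 ∪ (q \ q0) = q ∧
      ∀ q', IsQ m.toZFSet e q' → Ee q' q0 → (Ee q q' ↔ Ee (q1 ∪ (q \ q0)) (q1 ∪ (q' \ q0)))

/-- PB: values of restrictions, mergings and updates -/
def T_PB : Prop :=
  (∀ p S, Svl p → Svl (rst S p) ∧ ∀ k, (k ∈ S → app (rst S p) k = app p k) ∧
    (k ∉ S → app (rst S p) k = ∅)) ∧
  (∀ p S p', Svl p → Svl p' → Svl (cat S p p') ∧ ∀ k, (k ∈ S → app (cat S p p') k = app p k) ∧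
    (k ∉ S → app (cat S p p') k = app p' k)) ∧
  (∀ p k q, Svl p → Svl (upd p k q) ∧ app (upd p k q) k = q ∧
    ∀ j, j ≠ k → app (upd p k q) j = app p j) ∧
  ∀ p k, k ∉ dm p → app p k = ∅

/-- PC: definability -/
def T_PC : Prop :=
  Dfb ZFm (fun _ v => IsQ (v 0) (v 1) (v 2)) ∧ Dfb ZFm (fun _ v => Ee (v 0) (v 1)) ∧
  Tm ZFm (fun _ v => rst (v 0) (v 1)) ∧ Tm ZFm (fun _ v => cat (v 0) (v 1) (v 2)) ∧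
  Tm ZFm (fun _ v => upd (v 0) (v 1) (v 2)) ∧ Tm ZFm (fun _ v => fib (v 0) (v 1)) ∧
  Tm ZFm (fun _ v => Xs (v 0) (v 1)) ∧ Tm ZFm (fun _ v => Hs (v 0) (v 1) (v 2)) ∧
  Tm ZFm (fun _ v => Qs (v 0) (v 1)) ∧ Tm ZFm (fun _ v => Qr (v 0) (v 1) (v 2)) ∧
  Tm ZFm (fun _ v => As (v 0) (v 1) (v 2) (v 3) (v 4)) ∧
  Tm ZFm (fun _ v => aS (v 0) (v 1) (v 2) (v 3) (v 4))

/-- PE: choice functions in models of `ZFC⁻` -/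
def T_PE : Prop := ∀ M : V → Prop, ZFCm M → ∀ a b R, M a → M b → M R →
  (∀ x ∈ a, ∃ y ∈ b, ZFSet.pair x y ∈ R) →
  ∃ f, M f ∧ ZFSet.IsFunc a b f ∧ ∀ x ∈ a, ZFSet.pair x (app f x) ∈ R

/-- PF: the forcing notion -/
def T_PF : Prop := ∀ D : Dat, D.Ok →
  IsPo D.c D.r ∧ D.M D.c ∧ D.M D.r ∧ ∅ ∈ D.c ∧
  (∀ p ∈ D.c, Svl p ∧ D.M p ∧ (∀ k < D.κ, D.Q k (app p k.toZFSet)) ∧
    ∀ k, k ∉ D.κ.toZFSet → app p k = ∅) ∧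
  (∀ p ∈ D.c, ∀ S, D.M S → rst S p ∈ D.c) ∧
  (∀ p ∈ D.c, ∀ p' ∈ D.c, ∀ S, D.M S → cat S p p' ∈ D.c) ∧
  (∀ p ∈ D.c, ∀ k < D.κ, ∀ q, D.Q k q → upd p k.toZFSet q ∈ D.c) ∧
  (∀ p p', ZFSet.pair p p' ∈ D.r ↔ p ∈ D.c ∧ p' ∈ D.c ∧ D.Le p p') ∧
  (∀ p ∈ D.c, ∀ p' ∈ D.c,
    (∀ k < D.κ, Ee (app p k.toZFSet) (app p' k.toZFSet) ∨
      Ee (app p' k.toZFSet) (app p k.toZFSet)) → ∃ s ∈ D.c, D.Le s p ∧ D.Le s p') ∧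
  (∀ k < D.κ, ∀ q, D.Q k q → ∀ x < D.μ k, ∃ y < D.μ k, x < y ∧ (∀ z ∈ q, z ∈ y.toZFSet) ∧
    D.Q k (insert y.toZFSet q) ∧ Ee (insert y.toZFSet q) q) ∧
  ∀ i < D.κ, ∀ p ∈ D.c, (∀ z ∈ p, fst z ∈ i.toZFSet) → p ∈ LA ∅ (D.γ i)

/-- PG: the fibers of a generic filter -/
def T_PG : Prop := ∀ D : Dat, D.Ok → ∀ G, D.Gn G →
  (∀ p ∈ D.c, (p ∈ G ↔ ∀ k < D.κ, app p k.toZFSet ∈ D.F G k)) ∧
  (∀ k < D.κ, (∀ q, q ∈ D.F G k ↔ ∃ p ∈ G, q = app p k.toZFSet) ∧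
    (∀ q ∈ D.F G k, D.Q k q) ∧ ∅ ∈ D.F G k ∧
    (∀ q ∈ D.F G k, ∀ q', D.Q k q' → Ee q q' → q' ∈ D.F G k) ∧
    (∀ q ∈ D.F G k, ∀ q' ∈ D.F G k, Ee q q' ∨ Ee q' q) ∧
    (∀ x < D.μ k, ∃ q ∈ D.F G k, ∃ y < D.μ k, x < y ∧ y.toZFSet ∈ q ∧
      ∀ z ∈ q, z ∈ y.toZFSet ∨ z = y.toZFSet) ∧
    IsClub (D.μ k) (⋃₀ D.F G k : ZFSet) ∧
    ∀ x ∈ (⋃₀ D.F G k : ZFSet), x ∉ app D.Ef k.toZFSet) ∧
  (∀ z, z ∈ D.X G ↔ ∃ k < D.κ, ∃ q ∈ D.F G k, z = ZFSet.pair k.toZFSet q) ∧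
  (∀ p ∈ G, p ∈ D.H G) ∧
  (∀ p ∈ D.c, (p ∈ D.H G ↔ {k : Ordinal.{0} | k < D.κ ∧ app p k.toZFSet ∉ D.F G k}.Finite)) ∧
  ∀ p ∈ D.H G, ∀ T : Set Ordinal.{0}, (∀ k ∈ T, k < D.κ → app p k.toZFSet ∈ D.F G k) →
    ∃ p' ∈ G, (∀ k ∈ T, app p' k.toZFSet = app p k.toZFSet) ∧
      ∀ z, (∃ k ∈ T, fst z = k.toZFSet) → (z ∈ p' ↔ z ∈ p)

/-- PS: strategic closure -/
def T_PS : Prop := ∀ D : Dat, D.Ok → ∀ i < D.κ, ∀ ρ < D.μ i, ∀ p0 ∈ D.c, ∀ Ψ, D.M Ψ →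
  ZFSet.IsFunc (ZFSet.prod D.c ρ.toZFSet) D.c Ψ →
  (∀ v ∈ D.c, ∀ m < ρ, D.Le (app Ψ (ZFSet.pair v m.toZFSet)) v ∧
    ∀ k < i, app (app Ψ (ZFSet.pair v m.toZFSet)) k.toZFSet = app v k.toZFSet) →
  ∃ s : Ordinal.{0} → V, (∀ m ≤ ρ, s m ∈ D.c) ∧ s 0 = p0 ∧
    (∀ m ≤ ρ, ∀ l < m, D.Le (s m) (s l)) ∧
    (∀ m ≤ ρ, ∀ k < i, app (s m) k.toZFSet = app p0 k.toZFSet) ∧
    ∀ m < ρ, D.Le (s (succ m)) (app Ψ (ZFSet.pair (s m) m.toZFSet))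

/-- `W` is a family, indexed by `J`, of sets of conditions which are open, and dense below `p0` -/
def Dat.Den (D : Dat) (p0 J W : V) : Prop := ∀ j ∈ J, app W j ⊆ D.c ∧
  (∀ p ∈ app W j, ∀ q ∈ D.c, D.Le q p → q ∈ app W j) ∧
  ∀ p ∈ D.c, D.Le p p0 → ∃ q ∈ app W j, D.Le q p

/-- PH: reduction of dense sets -/
def T_PH : Prop := ∀ D : Dat, D.Ok → ∀ i < D.κ, ∀ p0 ∈ D.c, ∀ J W, D.M J →
  Sm D.M (LA ∅ (D.γ i)) J → D.M W → D.Den p0 J W →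
  ∃ v ∈ D.c, D.Le v p0 ∧ (∀ k < i, app v k.toZFSet = app p0 k.toZFSet) ∧
    ∀ j ∈ J, ∀ u ∈ D.c, (∀ z ∈ u, fst z ∈ i.toZFSet) →
      (∀ k < i, Ee (app u k.toZFSet) (app p0 k.toZFSet)) →
      ∃ u' ∈ D.c, (∀ z ∈ u', fst z ∈ i.toZFSet) ∧ D.Le u' u ∧ cat i.toZFSet u' v ∈ app W j

/-- PI: reduction of dense sets for a generic filter -/
def T_PI : Prop := ∀ D : Dat, D.Ok → ∀ G, D.Gn G → ∀ i < D.κ, ∀ p0 ∈ G, ∀ J W, D.M J →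
  Sm D.M (LA ∅ (D.γ i)) J → D.M W → D.Den p0 J W →
  ∃ v ∈ G, D.Le v p0 ∧
    ∀ j ∈ J, ∃ u' ∈ G, (∀ z ∈ u', fst z ∈ i.toZFSet) ∧ cat i.toZFSet u' v ∈ G ∧
      cat i.toZFSet u' v ∈ app W j

/-- PJ: regularity of `μ_i` in the extension -/
def T_PJ : Prop := ∀ D : Dat, D.Ok → ∀ G, D.Gn G → ∀ i < D.κ, ∀ f, Ext D.M G f →
  ZFSet.IsFunc (LA ∅ (D.γ i)) (D.μ i).toZFSet f →
  ∃ δ < D.μ i, ∀ x ∈ LA ∅ (D.γ i), app f x ∈ δ.toZFSet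

/-- PK: `κ` is inaccessible in the extension -/
def T_PK : Prop := ∀ D : Dat, D.Ok → ∀ G, D.Gn G → Inac (Ext D.M G) D.κ

/-- PL: lower bounds on a tail -/
def T_PL : Prop := ∀ D : Dat, D.Ok → ∀ G, D.Gn G → ∀ i < D.κ, ∀ J, D.M J →
  Sm D.M (LA ∅ (D.γ i)) J → ∀ f, Ext D.M G f → (∀ j ∈ J, app f j ∈ G) →
  ∃ v ∈ G, ∀ j ∈ J, ∀ k < D.κ, i ≤ k → Ee (app v k.toZFSet) (app (app f j) k.toZFSet)

/-- PM: modification at one coordinate -/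
def T_PM : Prop := ∀ D : Dat, D.Ok → ∀ G, D.Gn G → ∀ k < D.κ, ∀ q, D.Q k q →
  ∃ G', D.Gn G' ∧ (∀ j < D.κ, j ≠ k → D.F G' j = D.F G j) ∧ q ∈ D.F G' k ∧
    (∀ x, Ext D.M G' x ↔ Ext D.M G x) ∧ D.H G' = D.H G ∧
    ∀ W : V → Prop, ZFm W → (∀ x, D.M x → W x) → (W (D.F G k) ↔ W (D.F G' k))

/-- PN: finite modifications -/
def T_PN : Prop := ∀ D : Dat, D.Ok → ∀ G, D.Gn G → ∀ F : Set Ordinal.{0}, F.Finite →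
  (∀ k ∈ F, k < D.κ) → ∀ p ∈ D.c, ∃ G', D.Gn G' ∧ (∀ j < D.κ, j ∉ F → D.F G' j = D.F G j) ∧
    (∀ k ∈ F, app p k.toZFSet ∈ D.F G' k) ∧ (∀ x, Ext D.M G' x ↔ Ext D.M G x) ∧
    D.H G' = D.H G ∧
    ∀ W : V → Prop, ZFm W → (∀ x, D.M x → W x) → ∀ k ∈ F, (W (D.F G k) ↔ W (D.F G' k))

/-- PO: closure points in `E_i` -/
def T_PO : Prop := ∀ D : Dat, D.Ok → ∀ i < D.κ, ∀ w, D.M w →
  ZFSet.IsFunc (D.μ i).toZFSet (D.μ i).toZFSet w →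
  ∃ δ < D.μ i, δ.toZFSet ∈ app D.Ef i.toZFSet ∧ ∀ j < δ, app w j.toZFSet ∈ δ.toZFSet

/-! ## Part C: coding -/

/-- CA: the active set depends only on the fibers at active places of larger level -/
def T_CA : Prop := ∀ κ t X X' H b : V, IsOrd κ → (∀ i ∈ κ, IsOrd (fst (app t i))) → IsOrd b →
  (∀ j ∈ κ, Ac t X H j → b ∈ fst (app t j) → ∀ q, (ZFSet.pair j q ∈ X ↔ ZFSet.pair j q ∈ X')) →
  As κ t X H b = As κ t X' H b ∧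
  ((∀ j ∈ As κ t X H b, ∀ q, (ZFSet.pair j q ∈ X ↔ ZFSet.pair j q ∈ X')) →
    aS κ t X H b = aS κ t X' H b)

/-- CC: the codes of two generic filters -/
def T_CC : Prop := ∀ D : Dat, D.Ok → ∀ G G', D.Gn G → D.Gn G' → D.H G' = D.H G →
  ∀ β < D.κ,
  (∀ j < D.κ, j.toZFSet ∈ D.A G β → β.toZFSet ∈ fst (app D.tf j.toZFSet) → D.F G' j = D.F G j) →
  D.A G' β = D.A G β ∧
  ((∀ j < D.κ, j.toZFSet ∈ D.A G β → D.F G' j = D.F G j) → D.a G' β = D.a G β)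

/-- CE: computations -/
def T_CE : Prop := ∀ D : Dat, D.Ok → ∀ G, D.Gn G →
  (∀ β < D.κ, Ext D.M G (D.A G β) ∧ Ext D.M G (D.a G β)) ∧
  (∀ β, dm (D.a G β) = D.A G β) ∧
  (∀ β < D.κ, D.H G =
    D.c.sep fun p => ∃ i ∈ D.A G β, snd (app D.tf i) = ZFSet.pair (nS 2) p) ∧
  (∀ α β, α ≤ β → D.a G β = (D.a G α).sep fun z => β.toZFSet ⊆ fst (app D.tf (fst z))) ∧
  (∀ β < D.κ, D.a G (succ β) = (ZFSet.prod D.κ.toZFSet (LA ∅ D.κ)).sep fun z =>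
    fst z ∈ D.A G β ∧ β.toZFSet ∈ fst (app D.tf (fst z)) ∧
      ∃ i ∈ D.A G β, fst z ∈ i ∧
        app D.tf i = ZFSet.pair β.toZFSet (ZFSet.pair (nS 1) z)) ∧
  (∀ β < D.κ, D.A G β = D.κ.toZFSet.sep fun i =>
    (β.toZFSet ∈ fst (app D.tf i) ∧ i ∈ D.A G (succ β)) ∨
    (fst (app D.tf i) = β.toZFSet ∧ (snd (app D.tf i) = ∅ ∨
      (∃ j ∈ i, ∃ q, snd (app D.tf i) = ZFSet.pair (nS 1) (ZFSet.pair j q) ∧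
        β.toZFSet ∈ fst (app D.tf j) ∧ ZFSet.pair j q ∈ D.a G (succ β)) ∨
      ∃ p ∈ D.H G, snd (app D.tf i) = ZFSet.pair (nS 2) p)))

/-- CF: the models `B_β` -/
def T_CF : Prop := ∀ D : Dat, D.Ok → ∀ G, D.Gn G →
  (∀ β < D.κ, ZFCm (· ∈ D.B G β) ∧ D.a G β ∈ D.B G β ∧ ((D.B G β : V) : Set V).Countable ∧
    (∀ x, D.M x → x ∈ D.B G β) ∧ (∀ x ∈ D.B G β, Ext D.M G x) ∧
    (∀ α : Ordinal.{0}, α.toZFSet ∈ D.B G β ↔ α < D.θ) ∧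
    (∀ W : V → Prop, ZFm W → (∀ x, D.M x → W x) → W (D.a G β) → ∀ x ∈ D.B G β, W x) ∧
    D.H G ∈ D.B G β ∧ D.A G β ∈ D.B G β ∧ Inac (· ∈ D.B G β) D.κ) ∧
  ∀ α β, α ≤ β → β < D.κ → D.B G β ⊆ D.B G α

/-- CG: `E_i` is stationary in `B_β` if `i` is not in `A_β`, otherwise nonstationary -/
def T_CG : Prop := ∀ D : Dat, D.Ok → ∀ G, D.Gn G → ∀ β < D.κ, ∀ i < D.κ,
  (i.toZFSet ∉ D.A G β → ∀ C ∈ D.B G β, IsClub (D.μ i) C →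
    ∃ δ < D.μ i, δ.toZFSet ∈ app D.Ef i.toZFSet ∧ δ.toZFSet ∈ C) ∧
  (i.toZFSet ∈ D.A G β → (⋃₀ D.F G i : ZFSet) ∈ D.B G β)

/-- CH: many levels of the hierarchy of `B_β` are models of `ZFm` -/
def T_CH : Prop := ∀ D : Dat, D.Ok → ∀ G, D.Gn G → ∀ β < D.κ, ∀ ρ < D.θ,
  ∃ ρ', ρ < ρ' ∧ ρ' < D.θ ∧ ZFm (· ∈ LA (D.a G β) ρ')

/-- CI: small subsets of `μ i` in `B_β` are bounded -/
def T_CI : Prop := ∀ D : Dat, D.Ok → ∀ G, D.Gn G → ∀ β < D.κ, ∀ i < D.κ, ∀ x ∈ D.B G β,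
  Sm (· ∈ D.B G β) (LA ∅ (D.γ i)) x → x ⊆ (D.μ i).toZFSet → ∃ η < D.μ i, x ⊆ η.toZFSet

/-! ## Part M: quotients and the limit step -/

/-- the quotient forcing for `S` -/
noncomputable def Dat.qc (D : Dat) (G S : V) : V := Qs S (D.H G)

/-- its order -/
noncomputable def Dat.qr (D : Dat) (G S : V) : V := Qr D.κ.toZFSet S (D.H G)

/-- MA: the part of the generic filter outside `A_β` is generic over `B_β` -/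
def T_MA : Prop := ∀ D : Dat, D.Ok → ∀ G, D.Gn G → ∀ β < D.κ, ∀ S ∈ D.B G β,
  S ⊆ D.κ.toZFSet → (∀ k ∈ S, k ∉ D.A G β) →
  D.qc G S ∈ D.B G β ∧ D.qr G S ∈ D.B G β ∧ IsPo (D.qc G S) (D.qr G S) ∧
  Gen (· ∈ D.B G β) (D.qc G S) (D.qr G S) (Qs S G) ∧
  Qs S G = (D.qc G S).sep fun q => ∀ k ∈ S, ZFSet.pair k (app q k) ∈ D.X G

/-- the set of the active places of level exactly `β` -/
noncomputable def Dat.S (D : Dat) (G : V) (β : Ordinal.{0}) : V :=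
  (D.A G β).sep fun i => fst (app D.tf i) = β.toZFSet

/-- MB: `B_β` is a generic extension of `B_(β+1)` -/
def T_MB : Prop := ∀ D : Dat, D.Ok → ∀ G, D.Gn G → ∀ β < D.κ,
  D.S G β ∈ D.B G (succ β) ∧ D.S G β ⊆ D.κ.toZFSet ∧
  (∀ k ∈ D.S G β, k ∉ D.A G (succ β)) ∧
  ∀ x, x ∈ D.B G β ↔ Ext (· ∈ D.B G (succ β)) (Qs (D.S G β) G) x

/-- MC: the sets which are definable over `B_β` with parameters in `B_(β+1)` -/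
def T_MC : Prop := ∀ D : Dat, D.Ok → ∀ G, D.Gn G → ∀ β < D.κ,
  ∀ R : (V → Prop) → (ℕ → V) → Prop, Dfb ZFm R → ∀ u ∈ D.B G (succ β), ∀ v : ℕ → V,
    (∀ i, v i ∈ D.B G (succ β)) →
    (u.sep fun x => R (· ∈ D.B G β) (cons x v)) ∈ D.B G (succ β)

/-- MD: cofinalities -/
def T_MD : Prop := ∀ D : Dat, D.Ok → ∀ β < D.κ, IsSuccLimit β →
  ∃ ν < D.κ, ∃ c, D.M c ∧ ZFSet.IsFunc ν.toZFSet β.toZFSet c ∧
    (∀ ξ < β, ∃ j < ν, ξ.toZFSet ∈ app c j.toZFSet) ∧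
    ∃ α₀ < β, ∀ i, α₀ ≤ i → i < D.κ → Sm D.M (LA ∅ (D.γ i)) ν.toZFSet

/-- ME: `a_α` is computable from `a_β` and the quotient filter, for `α ≤ β` -/
def T_ME : Prop := ∃ F : V → V → V → V → V → V → V → V,
  Tm ZFm (fun _ v => F (v 0) (v 1) (v 2) (v 3) (v 4) (v 5) (v 6)) ∧
  ∀ D : Dat, D.Ok → ∀ G, D.Gn G → ∀ α β, α ≤ β → β < D.κ → ∀ S, S ⊆ D.κ.toZFSet →
    (∀ i < D.κ, α.toZFSet ⊆ fst (app D.tf i.toZFSet) →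
      fst (app D.tf i.toZFSet) ∈ β.toZFSet → i.toZFSet ∈ S) →
    F D.κ.toZFSet D.tf (D.H G) (D.a G β) S (Qs S G) α.toZFSet = D.a G α

/-- MF: the limit step for sets of ordinals -/
def T_MF : Prop := ∀ D : Dat, D.Ok → ∀ G, D.Gn G → ∀ β < D.κ, IsSuccLimit β →
  ∀ η < D.κ, ∀ x, x ⊆ η.toZFSet → (∀ α < β, x ∈ D.B G α) → x ∈ D.B G β

/-- MG: the limit step -/
def T_MG : Prop := ∀ D : Dat, D.Ok → ∀ G, D.Gn G → ∀ β < D.κ, IsSuccLimit β →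
  ∀ x, (∀ α < β, x ∈ D.N G α) → x ∈ D.N G β

end CAA
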